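import Pool.Agent.W2helper63.LG.Gr

set_option autoImplicit false

/-! The residue classes: windows all of whose members are covered. -/

namespace Pool.Agent.W2helper63.LG
open Finset Filter Topology
open Pool.Agent.H398R2.RK (greedy_all)
open Pool.Agent.H312R2 (many_primes)

/-- the lengths -/
noncomputable def Ln (k : ℕ) (y : ℝ) : ℝ :=
  y * Real.log y ^ k * Real.log (Real.log (Real.log y)) ^ 2 / Real.log (Real.log y) ^ (k + 1)

lemma large_primes : ∃ y₀ : ℕ, ∀ y : ℕ, y₀ ≤ y →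
    (y : ℝ) / (4 * Real.log y) ≤ (#{q ∈ Ioc y (4 * y) | q.Prime} : ℝ) := by
  obtain ⟨n0, h0⟩ := many_primes
  refine ⟨max n0 4, fun y hy => ?_⟩
  have h1 := h0 y ((le_max_left _ _).trans hy)
  have hy4 : (4 : ℝ) ≤ y := by exact_mod_cast (le_max_right _ _).trans hy
  have hl : 0 < Real.log y := Real.log_pos (by linarith)
  have h2 : Real.log (4 * y) ≤ 2 * Real.log y := by
    rw [Real.log_mul (by norm_num) (by positivity)]
    have := Real.log_le_log (by norm_num) hy4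
    linarith
  rw [div_le_iff₀ (by positivity)]
  have h3 : (0 : ℝ) ≤ (#{q ∈ Ioc y (4 * y) | q.Prime} : ℝ) := Nat.cast_nonneg _
  nlinarith

/-- two classes for each prime -/
theorem two_classes : ∃ c : ℝ, 0 < c ∧ ∃ y₀ : ℕ, ∀ y : ℕ, y₀ ≤ y → ∀ L : ℕ, (L : ℝ) ≤ c * Ln 3 y →
    ∃ b₁ b₂ : ℕ → ℕ, ∀ k ∈ Icc 1 L, ∃ p : ℕ, p.Prime ∧ 3 ≤ p ∧ p ≤ 4 * y ∧ (k ≡ b₁ p [MOD p] ∨ k ≡ b₂ p [MOD p]) := by
  classical
  obtain ⟨y₁, hmed⟩ := med_count
  obtain ⟨C, hC, y₂, hprod⟩ := sm_prod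
  obtain ⟨y₃, hlp⟩ := large_primes
  obtain ⟨c, hc⟩ : ∃ c : ℝ, c = 1 / (4 * 7200 * C ^ 2) := ⟨_, rfl⟩
  have hc0 : 0 < c := by rw [hc]; positivity
  obtain ⟨y₄, hfac⟩ := V0_facts (max (100 / c) (max 200 (2 * c)))
  refine ⟨c, hc0, max (max ⌈y₁⌉₊ ⌈y₂⌉₊) (max y₃ ⌈y₄⌉₊) + 1, fun y hy L₀ hL₀ => ?_⟩
  have hyy1 : y₁ ≤ y := by
    refine (Nat.le_ceil _).trans ?_
    exact_mod_cast (by omega : ⌈y₁⌉₊ ≤ y)
  have hyy2 : y₂ ≤ y := by
    refine (Nat.le_ceil _).trans ?_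
    exact_mod_cast (by omega : ⌈y₂⌉₊ ≤ y)
  have hyy4 : y₄ ≤ y := by
    refine (Nat.le_ceil _).trans ?_
    exact_mod_cast (by omega : ⌈y₄⌉₊ ≤ y)
  obtain ⟨f1, f2, f3, f4, f5, f6⟩ := hfac y hyy4
  have hN := hlp y (by omega)
  have hP := hprod y hyy2
  obtain ⟨l, hl⟩ : ∃ l, l = Real.log (y : ℝ) := ⟨_, rfl⟩
  obtain ⟨t, ht⟩ : ∃ t, t = Real.log l := ⟨_, rfl⟩
  obtain ⟨w, hw⟩ : ∃ w, w = Real.log t := ⟨_, rfl⟩
  have hLn : Ln 3 (y : ℝ) = y * l ^ 3 * w ^ 2 / t ^ 4 := by rw [hw, ht, hl]; rfl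
  rw [hLn] at hL₀
  rw [← hl] at f2 f3 f4 f6 hN hP
  rw [← ht] at f3 f4 hP
  rw [← hw] at f4 hP
  have m1 : 100 / c ≤ max (100 / c) (max 200 (2 * c)) := le_max_left _ _
  have m2 : 200 ≤ max (100 / c) (max 200 (2 * c)) := (le_max_left _ _).trans (le_max_right _ _)
  have m3 : 2 * c ≤ max (100 / c) (max 200 (2 * c)) := (le_max_right _ _).trans (le_max_right _ _)
  have hy0 : (0 : ℝ) < y := by linarith
  have hl0 : 0 < l := by linarith
  have ht0 : 0 < t := by linarith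
  have hw0 : 0 < w := by linarith
  have hyn : 0 < y := by exact_mod_cast hy0
  -- sizes
  have hlt : l = Real.exp t := by rw [ht, Real.exp_log hl0]
  have hq : t ^ 4 ≤ l := by
    rw [hlt]
    have h1 := Real.pow_div_factorial_le_exp t ht0.le 5
    have h2 : t ^ 4 ≤ t ^ 5 / (Nat.factorial 5 : ℕ) := by
      rw [le_div_iff₀ (by positivity)]
      have : ((Nat.factorial 5 : ℕ) : ℝ) = 120 := by norm_num [Nat.factorial]
      rw [this, pow_succ t 4]
      have : (0 : ℝ) ≤ t ^ 4 := by positivity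
      nlinarith
    linarith
  obtain ⟨L, hL⟩ : ∃ L, L = max y L₀ := ⟨_, rfl⟩
  have hyL : y ≤ L := by rw [hL]; exact le_max_left _ _
  have hLL : L₀ ≤ L := by rw [hL]; exact le_max_right _ _
  have hLc : (L : ℝ) ≤ c * (y * l ^ 3 * w ^ 2 / t ^ 4) := by
    rw [hL, Nat.cast_max]
    apply max_le _ hL₀
    have h1 : 1 ≤ c * (l ^ 3 * w ^ 2 / t ^ 4) := by
      rw [mul_div_assoc', le_div_iff₀ (by positivity), one_mul]
      have h2 : 100 ≤ c * l := by
        rw [div_le_iff₀ hc0] at m1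
        have : max (100 / c) (max 200 (2 * c)) * c ≤ l * c := mul_le_mul_of_nonneg_right f2 hc0.le
        linarith
      have h3 : 1 ≤ w ^ 2 := one_le_pow₀ (by linarith)
      have h4 : 1 ≤ l := by linarith
      calc t ^ 4 ≤ l := hq
        _ ≤ l ^ 2 := le_self_pow₀ h4 (by norm_num)
        _ = 1 * l ^ 2 * 1 := by ring
        _ ≤ (c * l) * l ^ 2 * w ^ 2 := by
            apply mul_le_mul _ h3 (by norm_num) (by positivity)
            apply mul_le_mul_of_nonneg_right _ (by positivity)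
            linarith
        _ = _ := by ring
    have h2 : c * (y * l ^ 3 * w ^ 2 / t ^ 4) = y * (c * (l ^ 3 * w ^ 2 / t ^ 4)) := by ring
    rw [h2]
    exact le_mul_of_one_le_right hy0.le h1
  have hL0 : (0 : ℝ) < L := lt_of_lt_of_le hy0 (by exact_mod_cast hyL)
  have hLn0 : 0 < L := by exact_mod_cast hL0
  have hwt : w ≤ t := by
    rw [hw]
    have := Real.log_le_sub_one_of_pos ht0
    linarith
  have h2L : ((2 * L : ℕ) : ℝ) ≤ y * l ^ 4 := by
    push_cast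
    have h1 : c * (y * l ^ 3 * w ^ 2 / t ^ 4) ≤ c * (y * l ^ 3) := by
      apply mul_le_mul_of_nonneg_left _ hc0.le
      rw [div_le_iff₀ (by positivity)]
      apply mul_le_mul_of_nonneg_left _ (by positivity)
      calc w ^ 2 ≤ t ^ 2 := pow_le_pow_left₀ hw0.le hwt 2
        _ ≤ t ^ 4 := pow_le_pow_right₀ (by linarith) (by norm_num)
    have h2 : 2 * c ≤ l := by linarith
    calc 2 * (L : ℝ) ≤ 2 * (c * (y * l ^ 3)) := by linarith
      _ = (2 * c) * (y * l ^ 3) := by ring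
      _ ≤ l * (y * l ^ 3) := mul_le_mul_of_nonneg_right h2 (by positivity)
      _ = _ := by ring
  have hmed' : ∀ L : ℕ, (y : ℝ) ≤ L → (L : ℝ) ≤ y * l ^ 4 → (#(Am y L) : ℝ) ≤ 60 * L * t / l := by
    intro L h1 h2
    have := hmed y hyy1 L h1 (by rw [← hl]; exact h2)
    rwa [← hl, ← ht] at this
  have hyLr : (y : ℝ) ≤ L := by exact_mod_cast hyL
  have hA1 := hmed' L hyLr (by push_cast at h2L; linarith)
  have hA2 := hmed' (2 * L) (by push_cast; linarith) h2L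
  -- the shift
  obtain ⟨h, hh, hcard⟩ : ∃ h ∈ Icc (L + 1) (2 * L),
      (#((Icc 1 L).filter (fun k => k ∈ Am y L ∧ h - k ∈ Am y (2 * L))) : ℝ) ≤ 7200 * L * t ^ 2 / l ^ 2 := by
    by_contra hcon
    push Not at hcon
    have hne : (Icc (L + 1) (2 * L)).Nonempty := ⟨L + 1, by rw [mem_Icc]; omega⟩
    have h1 := sum_lt_sum_of_nonempty hne hcon
    rw [sum_const, Nat.card_Icc, nsmul_eq_mul, show 2 * L + 1 - (L + 1) = L by omega] at h1
    have h2 : ∑ h ∈ Icc (L + 1) (2 * L), (#((Icc 1 L).filter (fun k => k ∈ Am y L ∧ h - k ∈ Am y (2 * L))) : ℝ) ≤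
        #(Am y L) * #(Am y (2 * L)) := by
      have h3 : ∑ h ∈ Icc (L + 1) (2 * L), #((Icc 1 L).filter (fun k => k ∈ Am y L ∧ h - k ∈ Am y (2 * L))) ≤
          #(Am y L ×ˢ Am y (2 * L)) := by
        rw [← card_sigma]
        apply card_le_card_of_injOn (fun x => (x.2, x.1 - x.2))
        · rintro ⟨h, k⟩ hx
          rw [mem_coe, mem_sigma, mem_filter] at hx
          rw [mem_coe, mem_product]
          exact hx.2.2
        · rintro ⟨h, k⟩ hx ⟨h', k'⟩ hx' he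
          rw [mem_coe, mem_sigma, mem_filter, mem_Icc, mem_Icc] at hx hx'
          simp only [Prod.mk.injEq] at he hx hx'
          obtain ⟨e1, e2⟩ := he
          have e3 : h = h' := by omega
          subst e3
          subst e1
          rfl
      rw [card_product] at h3
      exact_mod_cast h3
    have h4 : (#(Am y L) : ℝ) * #(Am y (2 * L)) ≤ (60 * L * t / l) * (60 * (2 * L : ℕ) * t / l) :=
      mul_le_mul hA1 hA2 (Nat.cast_nonneg _) (by positivity)
    have h5 : (60 * (L : ℝ) * t / l) * (60 * (2 * L : ℕ) * t / l) = L * (7200 * L * t ^ 2 / l ^ 2) := by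
      push_cast
      field_simp
      norm_num
    linarith
  obtain ⟨R, hR⟩ : ∃ R, R = (Icc 1 L).filter (fun k => k ∈ Am y L ∧ h - k ∈ Am y (2 * L)) := ⟨_, rfl⟩
  rw [← hR] at hcard
  have hSp : ∀ p ∈ Sm y, p.Prime := fun p hp => (Sm_prime hp).1
  obtain ⟨g₁, -, hg₁⟩ := greedy_all (Sm y) hSp R
  obtain ⟨R₁, hR₁⟩ : ∃ R₁, R₁ = R.filter (fun k => ∀ p ∈ Sm y, ¬ k ≡ g₁ p [MOD p]) := ⟨_, rfl⟩
  rw [← hR₁] at hg₁
  obtain ⟨g₂, -, hg₂⟩ := greedy_all (Sm y) hSp R₁
  obtain ⟨R₂, hR₂⟩ : ∃ R₂, R₂ = R₁.filter (fun k => ∀ p ∈ Sm y, ¬ k ≡ g₂ p [MOD p]) := ⟨_, rfl⟩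
  rw [← hR₂] at hg₂
  obtain ⟨P, hPd⟩ : ∃ P, P = ∏ p ∈ Sm (y : ℝ), (1 - 1 / (p : ℝ)) := ⟨_, rfl⟩
  rw [← hPd] at hg₁ hg₂ hP
  have hP0 : 0 ≤ P := by
    rw [hPd]
    exact prod_nonneg fun p hp => (Pool.Agent.H318R2.Cr.one_sub_inv_pos (hSp p hp)).le
  have hR2c : (#R₂ : ℝ) ≤ y / (4 * l) := by
    calc (#R₂ : ℝ) ≤ #R₁ * P := hg₂
      _ ≤ (#R * P) * P := mul_le_mul_of_nonneg_right hg₁ hP0
      _ ≤ ((7200 * L * t ^ 2 / l ^ 2) * (C * t / (l * w))) * (C * t / (l * w)) := by gcongr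
      _ = 7200 * C ^ 2 * t ^ 4 / (l ^ 4 * w ^ 2) * L := by
          field_simp
      _ ≤ 7200 * C ^ 2 * t ^ 4 / (l ^ 4 * w ^ 2) * (c * (y * l ^ 3 * w ^ 2 / t ^ 4)) :=
          mul_le_mul_of_nonneg_left hLc (by positivity)
      _ = y / (4 * l) := by
          rw [hc]
          field_simp
  have hcardQ : #R₂ ≤ #{q ∈ Ioc y (4 * y) | q.Prime} := by
    have : (#R₂ : ℝ) ≤ (#{q ∈ Ioc y (4 * y) | q.Prime} : ℝ) := hR2c.trans hN
    exact_mod_cast this
  obtain ⟨ψ, hψ⟩ := assign R₂ _ hcardQ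
  have hmedp : ∀ p : ℕ, p.Prime → V0 y < Real.log p → (p : ℝ) ≤ y → 3 ≤ p ∧ p ≤ y ∧ p ∉ Sm y := by
    intro p hp h1 h2
    have h3 : 3 ≤ p := by
      by_contra hcon
      have h4 : p = 2 := by have := hp.two_le; omega
      rw [h4] at h1
      have h5 := Real.log_two_lt_d9
      push_cast at h1
      linarith
    refine ⟨h3, by exact_mod_cast h2, ?_⟩
    rw [mem_Sm hp h3]
    exact not_le.2 h1
  refine ⟨fun p => if p ∈ Sm y then g₁ p else if p ≤ y then 0 else ψ p,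
    fun p => if p ∈ Sm y then g₂ p else if p ≤ y then h else 0, fun k hk => ?_⟩
  have hkL : k ∈ Icc 1 L := by
    rw [mem_Icc] at hk ⊢
    omega
  have hsm : ∀ p ∈ Sm y, p ≤ 4 * y := by
    intro p hp
    have h1 := (mem_Sm (hSp p hp) (Sm_prime hp).2).1 hp
    have hp0 : (0 : ℝ) < p := by exact_mod_cast (hSp p hp).pos
    have h2 : Real.log p ≤ Real.log y := by rw [← hl]; linarith
    have h3 : (p : ℝ) ≤ y := (Real.log_le_log_iff hp0 hy0).1 h2
    have h4 : p ≤ y := by exact_mod_cast h3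
    omega
  by_cases h1 : k ∈ Am y L
  · by_cases h2 : h - k ∈ Am y (2 * L)
    · have h3 : k ∈ R := by rw [hR, mem_filter]; exact ⟨hkL, h1, h2⟩
      by_cases h4 : k ∈ R₁
      · by_cases h5 : k ∈ R₂
        · obtain ⟨q, hq, hqk⟩ := hψ k h5
          rw [mem_filter, mem_Ioc] at hq
          refine ⟨q, hq.2, by have : y₃ ≤ y := by omega
                              have : (3 : ℝ) ≤ y := by linarith
                              have : 3 ≤ y := by exact_mod_cast this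
                              omega, hq.1.2, Or.inl ?_⟩
          have h6 : q ∉ Sm y := by
            intro hqS
            have h7 := (mem_Sm hq.2 (Sm_prime hqS).2).1 hqS
            have hq0 : (0 : ℝ) < q := by exact_mod_cast hq.2.pos
            have h8 : Real.log q ≤ Real.log y := by rw [← hl]; linarith
            have h9 : (q : ℝ) ≤ y := (Real.log_le_log_iff hq0 hy0).1 h8
            have h10 : q ≤ y := by exact_mod_cast h9
            omega
          simp only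
          rw [if_neg h6, if_neg (by omega), hqk]
        · rw [hR₂, mem_filter] at h5
          push Not at h5
          obtain ⟨p, hp, hpk⟩ := h5 h4
          refine ⟨p, hSp p hp, (Sm_prime hp).2, hsm p hp, Or.inr ?_⟩
          simp only
          rw [if_pos hp]
          exact hpk
      · rw [hR₁, mem_filter] at h4
        push Not at h4
        obtain ⟨p, hp, hpk⟩ := h4 h3
        refine ⟨p, hSp p hp, (Sm_prime hp).2, hsm p hp, Or.inl ?_⟩
        simp only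
        rw [if_pos hp]
        exact hpk
    · rw [Am, mem_filter] at h2
      push Not at h2
      rw [mem_Icc] at hh hkL
      obtain ⟨p, hp, hp1, hp2, hp3⟩ := h2 (by rw [mem_Icc]; omega)
      obtain ⟨a1, a2, a3⟩ := hmedp p hp hp1 hp2
      refine ⟨p, hp, a1, by omega, Or.inr ?_⟩
      simp only
      rw [if_neg a3, if_pos a2]
      exact (Nat.modEq_iff_dvd' (by omega)).2 hp3
  · rw [Am, mem_filter] at h1
    push Not at h1
    obtain ⟨p, hp, hp1, hp2, hp3⟩ := h1 hkL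
    obtain ⟨a1, a2, a3⟩ := hmedp p hp hp1 hp2
    refine ⟨p, hp, a1, by omega, Or.inl ?_⟩
    simp only
    rw [if_neg a3, if_pos a2]
    exact (Nat.modEq_zero_iff_dvd).2 hp3

end Pool.Agent.W2helper63.LG
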