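import Pool.Agent.W2helper63.LG.Cs

set_option autoImplicit false

/-! The Chinese remainder theorem: moduli and classes. -/

namespace Pool.Agent.W2helper63.LG
open Finset Filter Topology

/-- the modulus -/
def Wm (z : ℕ) : ℕ := ∏ p ∈ (Icc 3 z).filter Nat.Prime, p

lemma Wm_pos (z : ℕ) : 0 < Wm z := by
  unfold Wm
  exact prod_pos fun p hp => (mem_filter.1 hp).2.pos

lemma dvd_Wm {p z : ℕ} (hp : p.Prime) (h3 : 3 ≤ p) (hz : p ≤ z) : p ∣ Wm z :=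
  dvd_prod_of_mem _ (by rw [mem_filter, mem_Icc]; exact ⟨⟨h3, hz⟩, hp⟩)

lemma le_of_dvd_Wm {p z : ℕ} (hp : p.Prime) (h : p ∣ Wm z) : p ≤ z := by
  unfold Wm at h
  rw [Prime.dvd_finsetProd_iff hp.prime] at h
  obtain ⟨q, hq, hpq⟩ := h
  rw [mem_filter, mem_Icc] at hq
  have := (Nat.prime_dvd_prime_iff_eq hp hq.2).1 hpq
  omega

lemma Wm_le (z : ℕ) : Wm z ≤ 4 ^ z := by
  refine le_trans ?_ (primorial_le_four_pow z)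
  unfold Wm primorial
  apply Finset.prod_le_prod_of_subset_of_one_le'
  · intro p hp
    rw [mem_filter, mem_Icc] at hp
    rw [mem_filter, mem_range]
    exact ⟨by omega, hp.2⟩
  · intro p hp _
    exact (mem_filter.1 hp).2.pos

/-- the Chinese remainder theorem -/
lemma crt (z : ℕ) (f : ℕ → ℤ) : ∃ x : ℤ, ∀ p : ℕ, p.Prime → 3 ≤ p → p ≤ z → (p : ℤ) ∣ x - f p := by
  classical
  have h := Nat.chineseRemainderOfFinset (fun p : ℕ => (f p % (p : ℤ)).toNat) (fun p : ℕ => p) ((Icc 3 z).filter Nat.Prime)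
    (fun p hp => (mem_filter.1 hp).2.ne_zero)
    (fun p hp q hq hpq => (Nat.coprime_primes (mem_filter.1 hp).2 (mem_filter.1 hq).2).2 hpq)
  refine ⟨(h.1 : ℤ), fun p hp h3 hz => ?_⟩
  have h1 := h.2 p (by rw [mem_filter, mem_Icc]; exact ⟨⟨h3, hz⟩, hp⟩)
  have h2 : ((h.1 : ℕ) : ℤ) ≡ (((f p % (p : ℤ)).toNat : ℕ) : ℤ) [ZMOD (p : ℤ)] := (Int.natCast_modEq_iff).2 h1
  have hp0 : (p : ℤ) ≠ 0 := by exact_mod_cast hp.ne_zero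
  rw [Int.toNat_of_nonneg (Int.emod_nonneg _ hp0)] at h2
  have h3 : ((h.1 : ℕ) : ℤ) ≡ f p [ZMOD (p : ℤ)] := h2.trans (Int.mod_modEq _ _)
  exact (Int.modEq_iff_dvd.1 h3.symm)

/-- the class of the constant term -/
theorem sq_mod : ∃ c : ℝ, 0 < c ∧ ∃ y₀ : ℕ, ∀ y : ℕ, y₀ ≤ y → ∀ L : ℕ, (L : ℝ) ≤ c * Ln 2 y → ∀ u : ℤ,
    ∃ A : ℤ, ∀ a : ℤ, (Wm (4 * y) : ℤ) ∣ a - A → ∀ i : ℤ, |i| ≤ L →
      ∃ p : ℕ, p.Prime ∧ 3 ≤ p ∧ p ≤ 4 * y ∧ (p : ℤ) ∣ (u + i) ^ 2 + a := by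
  obtain ⟨c, hc, y₀, h⟩ := sq_classes
  refine ⟨c, hc, y₀, fun y hy L hL u => ?_⟩
  obtain ⟨α, hα⟩ := h y hy L hL u
  obtain ⟨A, hA⟩ := crt (4 * y) α
  refine ⟨A, fun a ha i hi => ?_⟩
  obtain ⟨p, hp, h3, h4, h5⟩ := hα i hi
  refine ⟨p, hp, h3, h4, ?_⟩
  have h6 : (p : ℤ) ∣ a - A := dvd_trans (by exact_mod_cast dvd_Wm hp h3 h4) ha
  have h7 := hA p hp h3 h4
  have e : (u + i) ^ 2 + a = ((u + i) ^ 2 + α p) + (a - A) + (A - α p) := by ring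
  rw [e]
  exact dvd_add (dvd_add h5 h6) h7

/-- the classes of both coefficients -/
theorem pair_mod : ∃ c : ℝ, 0 < c ∧ ∃ y₀ : ℕ, ∀ y : ℕ, y₀ ≤ y → ∀ L : ℕ, 1 ≤ L → (L : ℝ) ≤ c * Ln 3 y →
    ∃ S K : ℤ, ∀ s k : ℤ, (Wm (4 * y) : ℤ) ∣ s - S → (Wm (4 * y) : ℤ) ∣ k - K → ∀ i : ℤ, |i| ≤ L →
      ∃ p : ℕ, p.Prime ∧ 3 ≤ p ∧ p ≤ 4 * y ∧ (p : ℤ) ∣ i ^ 2 + 2 * s * i + k := by
  obtain ⟨c, hc, y₀, h⟩ := two_classes
  refine ⟨c / 3, by positivity, y₀ + 1, fun y hy L hL0 hL => ?_⟩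
  obtain ⟨b₁, b₂, hb⟩ := h y (by omega) (2 * L + 1) (by
    push_cast
    have : (1 : ℝ) ≤ L := by exact_mod_cast hL0
    linarith)
  obtain ⟨S, hS⟩ := crt (4 * y) (fun p => -((b₁ p : ℤ) - (L + 1) + ((b₂ p : ℤ) - (L + 1))) * (((p + 1) / 2 : ℕ) : ℤ))
  obtain ⟨K, hK⟩ := crt (4 * y) (fun p => ((b₁ p : ℤ) - (L + 1)) * ((b₂ p : ℤ) - (L + 1)))
  refine ⟨S, K, fun s k hs hk i hi => ?_⟩
  rw [abs_le] at hi
  obtain ⟨p, hp, h3, h4, h5⟩ := hb (i + (L + 1)).toNat (by rw [mem_Icc]; omega)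
  refine ⟨p, hp, h3, h4, ?_⟩
  have hW : (p : ℤ) ∣ (Wm (4 * y) : ℤ) := by exact_mod_cast dvd_Wm hp h3 h4
  have h6 : (p : ℤ) ∣ (i - ((b₁ p : ℤ) - (L + 1))) * (i - ((b₂ p : ℤ) - (L + 1))) := by
    rcases h5 with h5 | h5
    · apply Dvd.dvd.mul_right
      have h7 := (Int.natCast_modEq_iff).2 h5
      rw [Int.toNat_of_nonneg (by omega)] at h7
      have h8 := Int.modEq_iff_dvd.1 h7.symm
      have e : i - ((b₁ p : ℤ) - (L + 1)) = i + (L + 1) - b₁ p := by ring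
      rw [e]
      exact h8
    · apply Dvd.dvd.mul_left
      have h7 := (Int.natCast_modEq_iff).2 h5
      rw [Int.toNat_of_nonneg (by omega)] at h7
      have h8 := Int.modEq_iff_dvd.1 h7.symm
      have e : i - ((b₂ p : ℤ) - (L + 1)) = i + (L + 1) - b₂ p := by ring
      rw [e]
      exact h8
  obtain ⟨j₁, hj₁⟩ : ∃ j₁ : ℤ, j₁ = (b₁ p : ℤ) - (L + 1) := ⟨_, rfl⟩
  obtain ⟨j₂, hj₂⟩ : ∃ j₂ : ℤ, j₂ = (b₂ p : ℤ) - (L + 1) := ⟨_, rfl⟩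
  have hS' := hS p hp h3 h4
  have hK' := hK p hp h3 h4
  rw [← hj₁, ← hj₂] at hS' hK' h6
  have hodd : (2 : ℤ) * (((p + 1) / 2 : ℕ) : ℤ) = p + 1 := by
    have : p % 2 = 1 := by
      rcases hp.eq_two_or_odd with h | h
      · omega
      · exact h
    omega
  have a1 : (p : ℤ) ∣ s - S := hW.trans hs
  have a2 : (p : ℤ) ∣ k - K := hW.trans hk
  obtain ⟨m, hm⟩ : ∃ m : ℤ, m = (((p + 1) / 2 : ℕ) : ℤ) := ⟨_, rfl⟩
  rw [← hm] at hS' hodd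
  have e : i ^ 2 + 2 * s * i + k = (i - j₁) * (i - j₂) + 2 * i * (s - S) + 2 * i * (S - -(j₁ + j₂) * m) +
      (k - K) + (K - j₁ * j₂) - i * (j₁ + j₂) * (2 * m - 1) := by ring
  rw [e, hodd, add_sub_cancel_right]
  refine dvd_sub (dvd_add (dvd_add (dvd_add (dvd_add h6 ?_) ?_) a2) hK') ?_
  · exact a1.mul_left _
  · exact hS'.mul_left _
  · exact Dvd.intro_left _ rfl

end Pool.Agent.W2helper63.LG
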