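import Pool.Agent.W2helper63.LG.Cl

set_option autoImplicit false

/-! The residue classes of the constant term. -/

namespace Pool.Agent.W2helper63.LG
open Finset Filter Topology

/-- the number of the `i`, `|i| ≤ L`, with `i = 0` or `|i|` free of medium primes -/
lemma card_sym (y : ℝ) (L : ℕ) :
    #((Icc (-(L : ℤ)) L).filter (fun i => i = 0 ∨ i.natAbs ∈ Am y L)) ≤ 2 * #(Am y L) + 1 := by
  classical
  have h1 : (Icc (-(L : ℤ)) L).filter (fun i => i = 0 ∨ i.natAbs ∈ Am y L) ⊆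
      ((Am y L).image (fun m : ℕ => (m : ℤ)) ∪ (Am y L).image (fun m : ℕ => -(m : ℤ))) ∪ {0} := by
    intro i hi
    rw [mem_filter] at hi
    rw [mem_union, mem_union, mem_image, mem_image, mem_singleton]
    rcases hi.2 with h | h
    · exact Or.inr h
    · left
      rcases le_total 0 i with h0 | h0
      · exact Or.inl ⟨i.natAbs, h, by omega⟩
      · exact Or.inr ⟨i.natAbs, h, by omega⟩
  have h2 := card_le_card h1
  have h3 := card_union_le ((Am y L).image (fun m : ℕ => (m : ℤ)) ∪ (Am y L).image (fun m : ℕ => -(m : ℤ))) {0}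
  have h4 := card_union_le ((Am y L).image (fun m : ℕ => (m : ℤ))) ((Am y L).image (fun m : ℕ => -(m : ℤ)))
  have h5 : #((Am y L).image (fun m : ℕ => (m : ℤ))) ≤ #(Am y L) := card_image_le
  have h6 : #((Am y L).image (fun m : ℕ => -(m : ℤ))) ≤ #(Am y L) := card_image_le
  rw [card_singleton] at h3
  omega

/-- one class of the constant term for each prime -/
theorem sq_classes : ∃ c : ℝ, 0 < c ∧ ∃ y₀ : ℕ, ∀ y : ℕ, y₀ ≤ y → ∀ L : ℕ, (L : ℝ) ≤ c * Ln 2 y → ∀ u : ℤ,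
    ∃ α : ℕ → ℤ, ∀ i : ℤ, |i| ≤ L → ∃ p : ℕ, p.Prime ∧ 3 ≤ p ∧ p ≤ 4 * y ∧ (p : ℤ) ∣ (u + i) ^ 2 + α p := by
  classical
  obtain ⟨y₁, hmed⟩ := med_count
  obtain ⟨C, hC, y₂, hprod⟩ := sm_prod
  obtain ⟨y₃, hlp⟩ := large_primes
  obtain ⟨c, hc⟩ : ∃ c : ℝ, c = 1 / (4 * 242 * C ^ 2) := ⟨_, rfl⟩
  have hc0 : 0 < c := by rw [hc]; positivity
  obtain ⟨y₄, hfac⟩ := V0_facts (max (100 / c) (max 200 (2 * c)))
  refine ⟨c, hc0, max (max ⌈y₁⌉₊ ⌈y₂⌉₊) (max y₃ ⌈y₄⌉₊) + 1, fun y hy L₀ hL₀ u => ?_⟩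
  have hyy1 : y₁ ≤ y := by
    refine (Nat.le_ceil _).trans ?_
    exact_mod_cast (by omega : ⌈y₁⌉₊ ≤ y)
  have hyy2 : y₂ ≤ y := by
    refine (Nat.le_ceil _).trans ?_
    exact_mod_cast (by omega : ⌈y₂⌉₊ ≤ y)
  have hyy4 : y₄ ≤ y := by
    refine (Nat.le_ceil _).trans ?_
    exact_mod_cast (by omega : ⌈y₄⌉₊ ≤ y)
  obtain ⟨f1, f2, f3, f4, f5, f6⟩ := hfac y hyy4
  have hN := hlp y (by omega)
  have hP := hprod y hyy2
  obtain ⟨l, hl⟩ : ∃ l, l = Real.log (y : ℝ) := ⟨_, rfl⟩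
  obtain ⟨t, ht⟩ : ∃ t, t = Real.log l := ⟨_, rfl⟩
  obtain ⟨w, hw⟩ : ∃ w, w = Real.log t := ⟨_, rfl⟩
  have hLn : Ln 2 (y : ℝ) = y * l ^ 2 * w ^ 2 / t ^ 3 := by rw [hw, ht, hl]; rfl
  rw [hLn] at hL₀
  rw [← hl] at f2 f3 f4 f6 hN hP
  rw [← ht] at f3 f4 hP
  rw [← hw] at f4 hP
  have m1 : 100 / c ≤ max (100 / c) (max 200 (2 * c)) := le_max_left _ _
  have m2 : 200 ≤ max (100 / c) (max 200 (2 * c)) := (le_max_left _ _).trans (le_max_right _ _)
  have m3 : 2 * c ≤ max (100 / c) (max 200 (2 * c)) := (le_max_right _ _).trans (le_max_right _ _)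
  have hy0 : (0 : ℝ) < y := by linarith
  have hl0 : 0 < l := by linarith
  have ht0 : 0 < t := by linarith
  have hw0 : 0 < w := by linarith
  have hyn : 0 < y := by exact_mod_cast hy0
  -- sizes
  have hlt : l = Real.exp t := by rw [ht, Real.exp_log hl0]
  have hq : t ^ 3 ≤ l := by
    rw [hlt]
    have h1 := Real.pow_div_factorial_le_exp t ht0.le 4
    have h2 : t ^ 3 ≤ t ^ 4 / (Nat.factorial 4 : ℕ) := by
      rw [le_div_iff₀ (by positivity)]
      have : ((Nat.factorial 4 : ℕ) : ℝ) = 24 := by norm_num [Nat.factorial]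
      rw [this, pow_succ t 3]
      have : (0 : ℝ) ≤ t ^ 3 := by positivity
      nlinarith
    linarith
  obtain ⟨L, hL⟩ : ∃ L, L = max y L₀ := ⟨_, rfl⟩
  have hyL : y ≤ L := by rw [hL]; exact le_max_left _ _
  have hLL : L₀ ≤ L := by rw [hL]; exact le_max_right _ _
  have hLc : (L : ℝ) ≤ c * (y * l ^ 2 * w ^ 2 / t ^ 3) := by
    rw [hL, Nat.cast_max]
    apply max_le _ hL₀
    have h1 : 1 ≤ c * (l ^ 2 * w ^ 2 / t ^ 3) := by
      rw [mul_div_assoc', le_div_iff₀ (by positivity), one_mul]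
      have h2 : 100 ≤ c * l := by
        rw [div_le_iff₀ hc0] at m1
        have : max (100 / c) (max 200 (2 * c)) * c ≤ l * c := mul_le_mul_of_nonneg_right f2 hc0.le
        linarith
      have h3 : 1 ≤ w ^ 2 := one_le_pow₀ (by linarith)
      calc t ^ 3 ≤ l := hq
        _ = 1 * l * 1 := by ring
        _ ≤ (c * l) * l * w ^ 2 := by
            apply mul_le_mul _ h3 (by norm_num) (by positivity)
            apply mul_le_mul_of_nonneg_right _ (by positivity)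
            linarith
        _ = _ := by ring
    have h2 : c * (y * l ^ 2 * w ^ 2 / t ^ 3) = y * (c * (l ^ 2 * w ^ 2 / t ^ 3)) := by ring
    rw [h2]
    exact le_mul_of_one_le_right hy0.le h1
  have hL0 : (0 : ℝ) < L := lt_of_lt_of_le hy0 (by exact_mod_cast hyL)
  have hwt : w ≤ t := by
    rw [hw]
    have := Real.log_le_sub_one_of_pos ht0
    linarith
  have h2L : (L : ℝ) ≤ y * l ^ 4 := by
    have h1 : c * (y * l ^ 2 * w ^ 2 / t ^ 3) ≤ c * (y * l ^ 2) := by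
      apply mul_le_mul_of_nonneg_left _ hc0.le
      rw [div_le_iff₀ (by positivity)]
      apply mul_le_mul_of_nonneg_left _ (by positivity)
      calc w ^ 2 ≤ t ^ 2 := pow_le_pow_left₀ hw0.le hwt 2
        _ ≤ t ^ 3 := pow_le_pow_right₀ (by linarith) (by norm_num)
    have h2 : c ≤ l := by linarith
    calc (L : ℝ) ≤ c * (y * l ^ 2) := by linarith
      _ ≤ l * (y * l ^ 2) := mul_le_mul_of_nonneg_right h2 (by positivity)
      _ = y * l ^ 3 := by ring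
      _ ≤ _ := mul_le_mul_of_nonneg_left (pow_le_pow_right₀ (by linarith) (by norm_num)) hy0.le
  have hmed' : ∀ L : ℕ, (y : ℝ) ≤ L → (L : ℝ) ≤ y * l ^ 4 → (#(Am y L) : ℝ) ≤ 60 * L * t / l := by
    intro L h1 h2
    have := hmed y hyy1 L h1 (by rw [← hl]; exact h2)
    rwa [← hl, ← ht] at this
  have hyLr : (y : ℝ) ≤ L := by exact_mod_cast hyL
  have hA1 := hmed' L hyLr h2L
  obtain ⟨R, hR⟩ : ∃ R, R = (Icc (-(L : ℤ)) L).filter (fun i => i = 0 ∨ i.natAbs ∈ Am y L) := ⟨_, rfl⟩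
  have hcard : (#R : ℝ) ≤ 121 * L * t / l := by
    have h1 : (#R : ℝ) ≤ 2 * #(Am y L) + 1 := by
      rw [hR]
      exact_mod_cast card_sym y L
    have h2 : 1 ≤ (L : ℝ) * t / l := by
      rw [le_div_iff₀ hl0, one_mul]
      have h3 : l ≤ L := by
        have h4 : l ≤ y := by
          rw [hl]
          have := Real.log_le_sub_one_of_pos hy0
          linarith
        linarith
      nlinarith
    have h3 : 121 * (L : ℝ) * t / l = 2 * (60 * L * t / l) + L * t / l := by ring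
    linarith
  obtain ⟨α, hα⟩ := greedy_sq (Sm y) (fun p hp => Sm_prime hp) u R
  obtain ⟨R₂, hR₂⟩ : ∃ R₂, R₂ = R.filter (fun i => ∀ p ∈ Sm (y : ℝ), ¬ (p : ℤ) ∣ (u + i) ^ 2 + α p) := ⟨_, rfl⟩
  rw [← hR₂] at hα
  have hs2 := sm_prod2 y
  obtain ⟨P, hPd⟩ : ∃ P, P = ∏ p ∈ Sm (y : ℝ), (1 - 1 / (p : ℝ)) := ⟨_, rfl⟩
  rw [← hPd] at hs2 hP
  have hP0 : 0 ≤ P := by
    rw [hPd]
    exact prod_nonneg fun p hp => (Pool.Agent.H318R2.Cr.one_sub_inv_pos (Sm_prime hp).1).le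
  have hR2c : (#R₂ : ℝ) ≤ y / (4 * l) := by
    calc (#R₂ : ℝ) ≤ #R * ∏ p ∈ Sm (y : ℝ), (1 - 2 / ((p : ℝ) + 1)) := hα
      _ ≤ #R * (2 * P ^ 2) := mul_le_mul_of_nonneg_left hs2 (Nat.cast_nonneg _)
      _ ≤ (121 * L * t / l) * (2 * (C * t / (l * w)) ^ 2) := by gcongr
      _ = 242 * C ^ 2 * t ^ 3 / (l ^ 3 * w ^ 2) * L := by
          field_simp
          norm_num
      _ ≤ 242 * C ^ 2 * t ^ 3 / (l ^ 3 * w ^ 2) * (c * (y * l ^ 2 * w ^ 2 / t ^ 3)) :=
          mul_le_mul_of_nonneg_left hLc (by positivity)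
      _ = y / (4 * l) := by
          rw [hc]
          field_simp
  have hcardQ : #R₂ ≤ #{q ∈ Ioc y (4 * y) | q.Prime} := by
    have : (#R₂ : ℝ) ≤ (#{q ∈ Ioc y (4 * y) | q.Prime} : ℝ) := hR2c.trans hN
    exact_mod_cast this
  obtain ⟨ψ, hψ⟩ := assign R₂ _ hcardQ
  have hmedp : ∀ p : ℕ, p.Prime → V0 y < Real.log p → (p : ℝ) ≤ y → 3 ≤ p ∧ p ≤ y ∧ p ∉ Sm y := by
    intro p hp h1 h2
    have h3 : 3 ≤ p := by
      by_contra hcon
      have h4 : p = 2 := by have := hp.two_le; omega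
      rw [h4] at h1
      have h5 := Real.log_two_lt_d9
      push_cast at h1
      linarith
    refine ⟨h3, by exact_mod_cast h2, ?_⟩
    rw [mem_Sm hp h3]
    exact not_le.2 h1
  refine ⟨fun p => if p ∈ Sm y then α p else if p ≤ y then - u ^ 2 else -(u + ψ p) ^ 2, fun i hi => ?_⟩
  have hiL : i ∈ Icc (-(L : ℤ)) L := by
    rw [mem_Icc, ← abs_le]
    exact hi.trans (by exact_mod_cast hLL)
  have hsm : ∀ p ∈ Sm y, p ≤ y := by
    intro p hp
    have h1 := (mem_Sm (Sm_prime hp).1 (Sm_prime hp).2).1 hp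
    have hp0 : (0 : ℝ) < p := by exact_mod_cast (Sm_prime hp).1.pos
    have h2 : Real.log p ≤ Real.log y := by rw [← hl]; linarith
    have h3 : (p : ℝ) ≤ y := (Real.log_le_log_iff hp0 hy0).1 h2
    exact_mod_cast h3
  by_cases h3 : i ∈ R
  · by_cases h5 : i ∈ R₂
    · obtain ⟨q, hq, hqk⟩ := hψ i h5
      rw [mem_filter, mem_Ioc] at hq
      have hy3 : 3 ≤ y := by
        have : (3 : ℝ) ≤ y := by linarith
        exact_mod_cast this
      refine ⟨q, hq.2, by omega, hq.1.2, ?_⟩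
      have h6 : q ∉ Sm y := by
        intro hqS
        have := hsm q hqS
        omega
      simp only
      rw [if_neg h6, if_neg (by omega), hqk]
      exact ⟨0, by ring⟩
    · rw [hR₂, mem_filter] at h5
      push Not at h5
      obtain ⟨p, hp, hpk⟩ := h5 h3
      have := hsm p hp
      refine ⟨p, (Sm_prime hp).1, (Sm_prime hp).2, by omega, ?_⟩
      simp only
      rw [if_pos hp]
      exact hpk
  · rw [hR, mem_filter] at h3
    push Not at h3
    obtain ⟨hi0, hi1⟩ := h3 hiL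
    rw [Am, mem_filter] at hi1
    push Not at hi1
    rw [mem_Icc] at hiL
    obtain ⟨p, hp, hp1, hp2, hp3⟩ := hi1 (by rw [mem_Icc]; omega)
    obtain ⟨a1, a2, a3⟩ := hmedp p hp hp1 hp2
    refine ⟨p, hp, a1, by omega, ?_⟩
    simp only
    rw [if_neg a3, if_pos a2]
    have h7 : (p : ℤ) ∣ i := Int.natCast_dvd.2 hp3
    have e : (u + i) ^ 2 + -u ^ 2 = i * (2 * u + i) := by ring
    rw [e]
    exact h7.mul_right _

end Pool.Agent.W2helper63.LG
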