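import Pool.Agent.W2helper63.LG.Crt

set_option autoImplicit false

/-! The residue classes of the constant term, centre zero: the zeros `h` and `- h` for the medium primes. -/

namespace Pool.Agent.W2helper63.LG
open Finset Filter Topology

/-- symmetric sets -/
lemma card_sym2 (L : ℕ) (Q : ℕ → Prop) [DecidablePred Q] :
    #((Icc (-(L : ℤ)) L).filter (fun i => Q i.natAbs)) ≤ 2 * #((Icc 0 L).filter Q) := by
  classical
  have h1 : (Icc (-(L : ℤ)) L).filter (fun i => Q i.natAbs) ⊆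
      ((Icc 0 L).filter Q).image (fun m : ℕ => (m : ℤ)) ∪ ((Icc 0 L).filter Q).image (fun m : ℕ => -(m : ℤ)) := by
    intro i hi
    rw [mem_filter, mem_Icc] at hi
    rw [mem_union, mem_image, mem_image]
    obtain ⟨⟨h2, h3⟩, h4⟩ := hi
    rcases le_total 0 i with h0 | h0
    · exact Or.inl ⟨i.natAbs, by rw [mem_filter, mem_Icc]; exact ⟨⟨by omega, by omega⟩, h4⟩, by omega⟩
    · exact Or.inr ⟨i.natAbs, by rw [mem_filter, mem_Icc]; exact ⟨⟨by omega, by omega⟩, h4⟩, by omega⟩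
  have h2 := card_le_card h1
  have h4 := card_union_le (((Icc 0 L).filter Q).image (fun m : ℕ => (m : ℤ))) (((Icc 0 L).filter Q).image (fun m : ℕ => -(m : ℤ)))
  have h5 : #(((Icc 0 L).filter Q).image (fun m : ℕ => (m : ℤ))) ≤ #((Icc 0 L).filter Q) := card_image_le
  have h6 : #(((Icc 0 L).filter Q).image (fun m : ℕ => -(m : ℤ))) ≤ #((Icc 0 L).filter Q) := card_image_le
  omega

/-- one class of the constant term for each prime, centre zero -/
theorem zero_classes : ∃ c : ℝ, 0 < c ∧ ∃ y₀ : ℕ, ∀ y : ℕ, y₀ ≤ y → ∀ L : ℕ, (L : ℝ) ≤ c * Ln 3 y →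
    ∃ α : ℕ → ℤ, ∀ i : ℤ, |i| ≤ L → ∃ p : ℕ, p.Prime ∧ 3 ≤ p ∧ p ≤ 4 * y ∧ (p : ℤ) ∣ (0 + i) ^ 2 + α p := by
  classical
  obtain ⟨y₁, hmed⟩ := med_count
  obtain ⟨C, hC, y₂, hprod⟩ := sm_prod
  obtain ⟨y₃, hlp⟩ := large_primes
  obtain ⟨c, hc⟩ : ∃ c : ℝ, c = 1 / (4 * 86400 * C ^ 2) := ⟨_, rfl⟩
  have hc0 : 0 < c := by rw [hc]; positivity
  obtain ⟨y₄, hfac⟩ := V0_facts (max (100 / c) (max 200 (3 * c)))
  refine ⟨c, hc0, max (max ⌈y₁⌉₊ ⌈y₂⌉₊) (max y₃ ⌈y₄⌉₊) + 1, fun y hy L₀ hL₀ => ?_⟩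
  have hyy1 : y₁ ≤ y := by
    refine (Nat.le_ceil _).trans ?_
    exact_mod_cast (by omega : ⌈y₁⌉₊ ≤ y)
  have hyy2 : y₂ ≤ y := by
    refine (Nat.le_ceil _).trans ?_
    exact_mod_cast (by omega : ⌈y₂⌉₊ ≤ y)
  have hyy4 : y₄ ≤ y := by
    refine (Nat.le_ceil _).trans ?_
    exact_mod_cast (by omega : ⌈y₄⌉₊ ≤ y)
  obtain ⟨f1, f2, f3, f4, f5, f6⟩ := hfac y hyy4
  have hN := hlp y (by omega)
  have hP := hprod y hyy2
  obtain ⟨l, hl⟩ : ∃ l, l = Real.log (y : ℝ) := ⟨_, rfl⟩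
  obtain ⟨t, ht⟩ : ∃ t, t = Real.log l := ⟨_, rfl⟩
  obtain ⟨w, hw⟩ : ∃ w, w = Real.log t := ⟨_, rfl⟩
  have hLn : Ln 3 (y : ℝ) = y * l ^ 3 * w ^ 2 / t ^ 4 := by rw [hw, ht, hl]; rfl
  rw [hLn] at hL₀
  rw [← hl] at f2 f3 f4 f6 hN hP
  rw [← ht] at f3 f4 hP
  rw [← hw] at f4 hP
  have m1 : 100 / c ≤ max (100 / c) (max 200 (3 * c)) := le_max_left _ _
  have m2 : 200 ≤ max (100 / c) (max 200 (3 * c)) := (le_max_left _ _).trans (le_max_right _ _)
  have m3 : 3 * c ≤ max (100 / c) (max 200 (3 * c)) := (le_max_right _ _).trans (le_max_right _ _)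
  have hy0 : (0 : ℝ) < y := by linarith
  have hl0 : 0 < l := by linarith
  have ht0 : 0 < t := by linarith
  have hw0 : 0 < w := by linarith
  have hyn : 0 < y := by exact_mod_cast hy0
  -- sizes
  have hlt : l = Real.exp t := by rw [ht, Real.exp_log hl0]
  have hq : t ^ 4 ≤ l := by
    rw [hlt]
    have h1 := Real.pow_div_factorial_le_exp t ht0.le 5
    have h2 : t ^ 4 ≤ t ^ 5 / (Nat.factorial 5 : ℕ) := by
      rw [le_div_iff₀ (by positivity)]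
      have : ((Nat.factorial 5 : ℕ) : ℝ) = 120 := by norm_num [Nat.factorial]
      rw [this, pow_succ t 4]
      have : (0 : ℝ) ≤ t ^ 4 := by positivity
      nlinarith
    linarith
  obtain ⟨L, hL⟩ : ∃ L, L = max y L₀ := ⟨_, rfl⟩
  have hyL : y ≤ L := by rw [hL]; exact le_max_left _ _
  have hLL : L₀ ≤ L := by rw [hL]; exact le_max_right _ _
  have hLc : (L : ℝ) ≤ c * (y * l ^ 3 * w ^ 2 / t ^ 4) := by
    rw [hL, Nat.cast_max]
    apply max_le _ hL₀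
    have h1 : 1 ≤ c * (l ^ 3 * w ^ 2 / t ^ 4) := by
      rw [mul_div_assoc', le_div_iff₀ (by positivity), one_mul]
      have h2 : 100 ≤ c * l := by
        rw [div_le_iff₀ hc0] at m1
        have : max (100 / c) (max 200 (3 * c)) * c ≤ l * c := mul_le_mul_of_nonneg_right f2 hc0.le
        linarith
      have h3 : 1 ≤ w ^ 2 := one_le_pow₀ (by linarith)
      have h4 : 1 ≤ l := by linarith
      calc t ^ 4 ≤ l := hq
        _ ≤ l ^ 2 := le_self_pow₀ h4 (by norm_num)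
        _ = 1 * l ^ 2 * 1 := by ring
        _ ≤ (c * l) * l ^ 2 * w ^ 2 := by
            apply mul_le_mul _ h3 (by norm_num) (by positivity)
            apply mul_le_mul_of_nonneg_right _ (by positivity)
            linarith
        _ = _ := by ring
    have h2 : c * (y * l ^ 3 * w ^ 2 / t ^ 4) = y * (c * (l ^ 3 * w ^ 2 / t ^ 4)) := by ring
    rw [h2]
    exact le_mul_of_one_le_right hy0.le h1
  have hL0 : (0 : ℝ) < L := lt_of_lt_of_le hy0 (by exact_mod_cast hyL)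
  have hLn0 : 0 < L := by exact_mod_cast hL0
  have hwt : w ≤ t := by
    rw [hw]
    have := Real.log_le_sub_one_of_pos ht0
    linarith
  have h3L : ((3 * L : ℕ) : ℝ) ≤ y * l ^ 4 := by
    push_cast
    have h1 : c * (y * l ^ 3 * w ^ 2 / t ^ 4) ≤ c * (y * l ^ 3) := by
      apply mul_le_mul_of_nonneg_left _ hc0.le
      rw [div_le_iff₀ (by positivity)]
      apply mul_le_mul_of_nonneg_left _ (by positivity)
      calc w ^ 2 ≤ t ^ 2 := pow_le_pow_left₀ hw0.le hwt 2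
        _ ≤ t ^ 4 := pow_le_pow_right₀ (by linarith) (by norm_num)
    have h2 : 3 * c ≤ l := by linarith
    calc 3 * (L : ℝ) ≤ 3 * (c * (y * l ^ 3)) := by linarith
      _ = (3 * c) * (y * l ^ 3) := by ring
      _ ≤ l * (y * l ^ 3) := mul_le_mul_of_nonneg_right h2 (by positivity)
      _ = _ := by ring
  have hmed' : ∀ L : ℕ, (y : ℝ) ≤ L → (L : ℝ) ≤ y * l ^ 4 → (#(Am y L) : ℝ) ≤ 60 * L * t / l := by
    intro L h1 h2
    have := hmed y hyy1 L h1 (by rw [← hl]; exact h2)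
    rwa [← hl, ← ht] at this
  have hyLr : (y : ℝ) ≤ L := by exact_mod_cast hyL
  have hA2 := hmed' (2 * L) (by push_cast; linarith) (by push_cast at h3L ⊢; linarith)
  have hA3 := hmed' (3 * L) (by push_cast; linarith) h3L
  -- the shift
  obtain ⟨h, hh, hcard⟩ : ∃ h ∈ Icc (L + 1) (2 * L),
      (#((Icc 0 L).filter (fun k => h - k ∈ Am y (2 * L) ∧ h + k ∈ Am y (3 * L))) : ℝ) ≤ 21600 * L * t ^ 2 / l ^ 2 := by
    by_contra hcon
    push Not at hcon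
    have hne : (Icc (L + 1) (2 * L)).Nonempty := ⟨L + 1, by rw [mem_Icc]; omega⟩
    have h1 := sum_lt_sum_of_nonempty hne hcon
    rw [sum_const, Nat.card_Icc, nsmul_eq_mul, show 2 * L + 1 - (L + 1) = L by omega] at h1
    have h2 : ∑ h ∈ Icc (L + 1) (2 * L), (#((Icc 0 L).filter (fun k => h - k ∈ Am y (2 * L) ∧ h + k ∈ Am y (3 * L))) : ℝ) ≤
        #(Am y (2 * L)) * #(Am y (3 * L)) := by
      have h3 : ∑ h ∈ Icc (L + 1) (2 * L), #((Icc 0 L).filter (fun k => h - k ∈ Am y (2 * L) ∧ h + k ∈ Am y (3 * L))) ≤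
          #(Am y (2 * L) ×ˢ Am y (3 * L)) := by
        rw [← card_sigma]
        apply card_le_card_of_injOn (fun x => (x.1 - x.2, x.1 + x.2))
        · rintro ⟨h, k⟩ hx
          rw [mem_coe, mem_sigma, mem_filter] at hx
          rw [mem_coe, mem_product]
          exact hx.2.2
        · rintro ⟨h, k⟩ hx ⟨h', k'⟩ hx' he
          rw [mem_coe, mem_sigma, mem_filter, mem_Icc, mem_Icc] at hx hx'
          simp only [Prod.mk.injEq] at he hx hx'
          obtain ⟨e1, e2⟩ := he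
          have e3 : h = h' := by omega
          have e4 : k = k' := by omega
          subst e3
          subst e4
          rfl
      rw [card_product] at h3
      exact_mod_cast h3
    have h4 : (#(Am y (2 * L)) : ℝ) * #(Am y (3 * L)) ≤ (60 * (2 * L : ℕ) * t / l) * (60 * (3 * L : ℕ) * t / l) :=
      mul_le_mul hA2 hA3 (Nat.cast_nonneg _) (by positivity)
    have h5 : (60 * (2 * L : ℕ) * t / l) * (60 * (3 * L : ℕ) * t / l) = L * (21600 * L * t ^ 2 / l ^ 2) := by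
      push_cast
      field_simp
      norm_num
    linarith
  rw [mem_Icc] at hh
  obtain ⟨R, hR⟩ : ∃ R, R = (Icc (-(L : ℤ)) L).filter (fun i => h - i.natAbs ∈ Am y (2 * L) ∧ h + i.natAbs ∈ Am y (3 * L)) := ⟨_, rfl⟩
  have hcard : (#R : ℝ) ≤ 43200 * L * t ^ 2 / l ^ 2 := by
    have h1 : (#R : ℝ) ≤ 2 * #((Icc 0 L).filter (fun k => h - k ∈ Am y (2 * L) ∧ h + k ∈ Am y (3 * L))) := by
      rw [hR]
      exact_mod_cast card_sym2 L (fun k => h - k ∈ Am y (2 * L) ∧ h + k ∈ Am y (3 * L))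
    have h3 : 43200 * (L : ℝ) * t ^ 2 / l ^ 2 = 2 * (21600 * L * t ^ 2 / l ^ 2) := by ring
    linarith
  obtain ⟨α, hα⟩ := greedy_sq (Sm y) (fun p hp => Sm_prime hp) 0 R
  obtain ⟨R₂, hR₂⟩ : ∃ R₂, R₂ = R.filter (fun i => ∀ p ∈ Sm (y : ℝ), ¬ (p : ℤ) ∣ (0 + i) ^ 2 + α p) := ⟨_, rfl⟩
  rw [← hR₂] at hα
  have hs2 := sm_prod2 y
  obtain ⟨P, hPd⟩ : ∃ P, P = ∏ p ∈ Sm (y : ℝ), (1 - 1 / (p : ℝ)) := ⟨_, rfl⟩
  rw [← hPd] at hs2 hP
  have hP0 : 0 ≤ P := by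
    rw [hPd]
    exact prod_nonneg fun p hp => (Pool.Agent.H318R2.Cr.one_sub_inv_pos (Sm_prime hp).1).le
  have hR2c : (#R₂ : ℝ) ≤ y / (4 * l) := by
    calc (#R₂ : ℝ) ≤ #R * ∏ p ∈ Sm (y : ℝ), (1 - 2 / ((p : ℝ) + 1)) := hα
      _ ≤ #R * (2 * P ^ 2) := mul_le_mul_of_nonneg_left hs2 (Nat.cast_nonneg _)
      _ ≤ (43200 * L * t ^ 2 / l ^ 2) * (2 * (C * t / (l * w)) ^ 2) := by gcongr
      _ = 86400 * C ^ 2 * t ^ 4 / (l ^ 4 * w ^ 2) * L := by
          field_simp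
          norm_num
      _ ≤ 86400 * C ^ 2 * t ^ 4 / (l ^ 4 * w ^ 2) * (c * (y * l ^ 3 * w ^ 2 / t ^ 4)) :=
          mul_le_mul_of_nonneg_left hLc (by positivity)
      _ = y / (4 * l) := by
          rw [hc]
          field_simp
  have hcardQ : #R₂ ≤ #{q ∈ Ioc y (4 * y) | q.Prime} := by
    have : (#R₂ : ℝ) ≤ (#{q ∈ Ioc y (4 * y) | q.Prime} : ℝ) := hR2c.trans hN
    exact_mod_cast this
  obtain ⟨ψ, hψ⟩ := assign R₂ _ hcardQ
  have hmedp : ∀ p : ℕ, p.Prime → V0 y < Real.log p → (p : ℝ) ≤ y → 3 ≤ p ∧ p ≤ y ∧ p ∉ Sm y := by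
    intro p hp h1 h2
    have h3 : 3 ≤ p := by
      by_contra hcon
      have h4 : p = 2 := by have := hp.two_le; omega
      rw [h4] at h1
      have h5 := Real.log_two_lt_d9
      push_cast at h1
      linarith
    refine ⟨h3, by exact_mod_cast h2, ?_⟩
    rw [mem_Sm hp h3]
    exact not_le.2 h1
  refine ⟨fun p => if p ∈ Sm y then α p else if p ≤ y then -(h : ℤ) ^ 2 else -(0 + ψ p) ^ 2, fun i hi => ?_⟩
  have hiL : i ∈ Icc (-(L : ℤ)) L := by
    rw [mem_Icc, ← abs_le]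
    exact hi.trans (by exact_mod_cast hLL)
  have hsm : ∀ p ∈ Sm y, p ≤ y := by
    intro p hp
    have h1 := (mem_Sm (Sm_prime hp).1 (Sm_prime hp).2).1 hp
    have hp0 : (0 : ℝ) < p := by exact_mod_cast (Sm_prime hp).1.pos
    have h2 : Real.log p ≤ Real.log y := by rw [← hl]; linarith
    have h3 : (p : ℝ) ≤ y := (Real.log_le_log_iff hp0 hy0).1 h2
    exact_mod_cast h3
  by_cases h3 : i ∈ R
  · by_cases h5 : i ∈ R₂
    · obtain ⟨q, hq, hqk⟩ := hψ i h5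
      rw [mem_filter, mem_Ioc] at hq
      have hy3 : 3 ≤ y := by
        have : (3 : ℝ) ≤ y := by linarith
        exact_mod_cast this
      refine ⟨q, hq.2, by omega, hq.1.2, ?_⟩
      have h6 : q ∉ Sm y := by
        intro hqS
        have := hsm q hqS
        omega
      simp only
      rw [if_neg h6, if_neg (by omega), hqk]
      exact ⟨0, by ring⟩
    · rw [hR₂, mem_filter] at h5
      push Not at h5
      obtain ⟨p, hp, hpk⟩ := h5 h3
      have := hsm p hp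
      refine ⟨p, (Sm_prime hp).1, (Sm_prime hp).2, by omega, ?_⟩
      simp only
      rw [if_pos hp]
      exact hpk
  · rw [hR, mem_filter] at h3
    push Not at h3
    have h4 := h3 hiL
    rw [mem_Icc] at hiL
    -- a medium prime divides `h - |i|` or `h + |i|`
    have key : ∀ m : ℕ, 1 ≤ m → m ≤ 3 * L → (m : ℤ) ∣ i ^ 2 - (h : ℤ) ^ 2 → ∀ K : ℕ, m ≤ K → m ∉ Am y K →
        ∃ p : ℕ, p.Prime ∧ 3 ≤ p ∧ p ≤ 4 * y ∧ (p : ℤ) ∣ (0 + i) ^ 2 +
          (if p ∈ Sm (y : ℝ) then α p else if p ≤ y then -(h : ℤ) ^ 2 else -(0 + ψ p) ^ 2) := by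
      intro m hm1 hm2 hmd K hK hmA
      rw [Am, mem_filter] at hmA
      push Not at hmA
      obtain ⟨p, hp, hp1, hp2, hp3⟩ := hmA (by rw [mem_Icc]; exact ⟨hm1, hK⟩)
      obtain ⟨a1, a2, a3⟩ := hmedp p hp hp1 hp2
      refine ⟨p, hp, a1, by omega, ?_⟩
      rw [if_neg a3, if_pos a2]
      have h7 : (p : ℤ) ∣ i ^ 2 - (h : ℤ) ^ 2 := dvd_trans (by exact_mod_cast hp3) hmd
      have e : (0 + i) ^ 2 + -(h : ℤ) ^ 2 = i ^ 2 - (h : ℤ) ^ 2 := by ring
      rw [e]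
      exact h7
    have hsq : (i.natAbs : ℤ) ^ 2 = i ^ 2 := Int.natAbs_sq i
    by_cases h5 : h - i.natAbs ∈ Am y (2 * L)
    · have h6 := h4 h5
      refine key (h + i.natAbs) (by omega) (by omega) ?_ (3 * L) (by omega) h6
      push_cast
      rw [← Int.natAbs_sq i]
      have e : ((i.natAbs : ℤ)) ^ 2 - (h : ℤ) ^ 2 = ((h : ℤ) + i.natAbs) * (i.natAbs - h) := by ring
      rw [Int.natCast_natAbs] at e ⊢
      rw [e]
      exact Dvd.intro _ rfl
    · refine key (h - i.natAbs) (by omega) (by omega) ?_ (2 * L) (by omega) h5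
      have hle : i.natAbs ≤ h := by omega
      rw [← Int.natAbs_sq i]
      push_cast [hle]
      have e : ((i.natAbs : ℤ)) ^ 2 - (h : ℤ) ^ 2 = ((h : ℤ) - i.natAbs) * (-(i.natAbs + h)) := by ring
      rw [Int.natCast_natAbs] at e
      rw [e]
      exact Dvd.intro _ rfl

/-- the class of the constant term, centre zero -/
theorem zero_mod : ∃ c : ℝ, 0 < c ∧ ∃ y₀ : ℕ, ∀ y : ℕ, y₀ ≤ y → ∀ L : ℕ, (L : ℝ) ≤ c * Ln 3 y →
    ∃ A : ℤ, ∀ a : ℤ, (Wm (4 * y) : ℤ) ∣ a - A → ∀ i : ℤ, |i| ≤ L →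
      ∃ p : ℕ, p.Prime ∧ 3 ≤ p ∧ p ≤ 4 * y ∧ (p : ℤ) ∣ (0 + i) ^ 2 + a := by
  obtain ⟨c, hc, y₀, h⟩ := zero_classes
  refine ⟨c, hc, y₀, fun y hy L hL => ?_⟩
  obtain ⟨α, hα⟩ := h y hy L hL
  obtain ⟨A, hA⟩ := crt (4 * y) α
  refine ⟨A, fun a ha i hi => ?_⟩
  obtain ⟨p, hp, h3, h4, h5⟩ := hα i hi
  refine ⟨p, hp, h3, h4, ?_⟩
  have h6 : (p : ℤ) ∣ a - A := dvd_trans (by exact_mod_cast dvd_Wm hp h3 h4) ha
  have h7 := hA p hp h3 h4
  have e : (0 + i) ^ 2 + a = ((0 + i) ^ 2 + α p) + (a - A) + (A - α p) := by ring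
  rw [e]
  exact dvd_add (dvd_add h5 h6) h7

end Pool.Agent.W2helper63.LG
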