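import Pool.Agent.W2helper63.LG.G

set_option autoImplicit false

/-! Long windows without primes: the theorem. -/

namespace Pool.Agent.W2helper63.LG
open Finset Filter Topology

/-- the lengths -/
noncomputable def len (k : ℕ) (X : ℝ) : ℝ :=
  Real.log X * Real.log (Real.log X) ^ k * Real.log (Real.log (Real.log (Real.log X))) ^ 2 /
    Real.log (Real.log (Real.log X)) ^ (k + 1)

/-- the integers `n` with `|n - x| ≤ r` -/
noncomputable def window (x r : ℝ) : Finset ℤ := Icc ⌈x - r⌉ ⌊x + r⌋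

/-- the predicted number -/
noncomputable def predicted (h : ℝ) (a : ℤ) (S : Finset ℤ) : ℝ :=
  h * ∑ n ∈ S, 1 / Real.log ((|n ^ 2 + a| : ℤ) : ℝ)

/-- the conclusion for one `a` -/
def Gap (ε c L : ℝ) (X : ℕ) (x : ℝ) (a : ℤ) : Prop :=
  ¬ IsSquare (-a) ∧
  (∀ n ∈ window x L, ∃ p : ℕ, p.Prime ∧ (p : ℝ) ≤ ε * Real.log X ∧ (p : ℤ) ∣ n ^ 2 + a ∧ (p : ℤ) < |n ^ 2 + a|) ∧
  ∃ h : ℝ, Tendsto (pr (-a)) atTop (𝓝 h) ∧ ∀ S ⊆ window x L,
    c * #S / (Real.log X * Real.log (Real.log X)) ≤ predicted h a S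

lemma mem_window {x r : ℝ} {n : ℤ} : n ∈ window x r ↔ |(n : ℝ) - x| ≤ r := by
  unfold window
  rw [mem_Icc, Int.ceil_le, Int.le_floor, abs_le]
  constructor
  · rintro ⟨h1, h2⟩
    constructor <;> linarith
  · rintro ⟨h1, h2⟩
    constructor <;> linarith

lemma gap_of {ε c ch r x : ℝ} {X L Y : ℕ} {u a : ℤ} (hX : 10 ≤ X) (hm : 1 ≤ Real.log (Real.log X))
    (hYm : Real.log Y ≤ Real.log (Real.log X)) (hY : 2 ≤ Y) (hYε : (Y : ℝ) ≤ ε * Real.log X)
    (hch : 0 < ch) (hc : c ≤ ch / 3) (hgood : GoodH ch Y (-a)) (hcov : Cov L Y u a)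
    (hwin : ∀ n ∈ window x r, |n - u| ≤ L) (hu : |u| ≤ 2 * X) (hL : L ≤ X) (ha : |a| ≤ X) : Gap ε c r X x a := by
  obtain ⟨hsq, h, hh, hlim⟩ := hgood
  have hl0 : 0 < Real.log X := by
    by_contra hcon
    push Not at hcon
    have : (10 : ℝ) ≤ X := by exact_mod_cast hX
    have := Real.log_pos (show (1 : ℝ) < X by linarith)
    linarith
  have hval : ∀ n ∈ window x r, ∃ p : ℕ, p.Prime ∧ 3 ≤ p ∧ p ≤ Y ∧ (p : ℤ) ∣ n ^ 2 + a ∧ (p : ℤ) < |n ^ 2 + a| := by
    intro n hn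
    have h1 := hcov (n - u) (hwin n hn)
    rwa [add_sub_cancel] at h1
  refine ⟨hsq, fun n hn => ?_, h, hlim, fun S hS => ?_⟩
  · obtain ⟨p, hp, h3, h4, h5, h6⟩ := hval n hn
    refine ⟨p, hp, ?_, h5, h6⟩
    exact le_trans (by exact_mod_cast h4) hYε
  · obtain ⟨l, hl⟩ : ∃ l, l = Real.log (X : ℝ) := ⟨_, rfl⟩
    obtain ⟨m, hmd⟩ : ∃ m, m = Real.log l := ⟨_, rfl⟩
    rw [← hl] at hl0 hm hYm ⊢
    rw [← hmd] at hm hYm ⊢
    have hsum : #S / (3 * l) ≤ ∑ n ∈ S, 1 / Real.log ((|n ^ 2 + a| : ℤ) : ℝ) := by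
      calc #S / (3 * l) = ∑ _n ∈ S, 1 / (3 * l) := by rw [sum_const, nsmul_eq_mul, mul_one_div]
        _ ≤ _ := by
            apply sum_le_sum
            intro n hn
            have hn := hS hn
            obtain ⟨p, hp, h3, h4, h5, h6⟩ := hval n hn
            have h7 : (3 : ℤ) < |n ^ 2 + a| := lt_of_le_of_lt (by exact_mod_cast h3) h6
            have h7r : (3 : ℝ) < ((|n ^ 2 + a| : ℤ) : ℝ) := by exact_mod_cast h7
            have h8 := hwin n hn
            have h9 : |n| ≤ 3 * X := by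
              have e1 : n = (n - u) + u := by ring
              have e2 := abs_add_le (n - u) u
              rw [← e1] at e2
              have : (L : ℤ) ≤ X := by exact_mod_cast hL
              linarith
            have h10 : |n ^ 2 + a| ≤ (X : ℤ) ^ 3 := by
              have e1 : |n ^ 2 + a| ≤ |n ^ 2| + |a| := abs_add_le _ _
              have e2 : |n ^ 2| = |n| ^ 2 := by rw [abs_pow]
              have e3 : |n| ^ 2 ≤ (3 * (X : ℤ)) ^ 2 := pow_le_pow_left₀ (abs_nonneg _) h9 2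
              have hXz : (10 : ℤ) ≤ X := by exact_mod_cast hX
              nlinarith
            have h10r : ((|n ^ 2 + a| : ℤ) : ℝ) ≤ (X : ℝ) ^ 3 := by exact_mod_cast h10
            apply one_div_le_one_div_of_le (Real.log_pos (by linarith))
            calc Real.log ((|n ^ 2 + a| : ℤ) : ℝ) ≤ Real.log ((X : ℝ) ^ 3) := Real.log_le_log (by linarith) h10r
              _ = 3 * l := by rw [Real.log_pow, hl]; push_cast; ring
    have hlY : 0 < Real.log Y := Real.log_pos (by exact_mod_cast (by omega : 1 < Y))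
    have hh2 : ch / m ≤ h := le_trans (div_le_div_of_nonneg_left hch.le hlY hYm) hh
    unfold predicted
    have h1 : 0 ≤ #S / (3 * l) := by positivity
    calc c * #S / (l * m) ≤ (ch / 3) * #S / (l * m) := by gcongr
      _ = (ch / m) * (#S / (3 * l)) := by field_simp
      _ ≤ _ := mul_le_mul hh2 hsum h1 (le_trans (by positivity) hh2)

/-- the predicted numbers tend to infinity -/
lemma tends (k : ℕ) (hk : 2 ≤ k) :
    Tendsto (fun X : ℝ => len k X / (Real.log X * Real.log (Real.log X))) atTop atTop := by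
  have h1 : Tendsto (fun t : ℝ => Real.exp (1 * t) / t ^ ((3 : ℕ) : ℝ)) atTop atTop :=
    tendsto_exp_mul_div_rpow_atTop 3 1 zero_lt_one
  have h2 := h1.comp ((Real.tendsto_log_atTop.comp Real.tendsto_log_atTop).comp Real.tendsto_log_atTop)
  refine tendsto_atTop_mono' atTop ?_ h2
  obtain ⟨x₀, hx₀⟩ := ev_t 100
  filter_upwards [Real.tendsto_log_atTop.eventually_ge_atTop x₀] with X hX
  obtain ⟨a1, a2, a3, a4⟩ := hx₀ _ hX
  simp only [Function.comp]
  obtain ⟨l, hl⟩ : ∃ l, l = Real.log (X : ℝ) := ⟨_, rfl⟩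
  obtain ⟨m, hm⟩ : ∃ m, m = Real.log l := ⟨_, rfl⟩
  obtain ⟨t, ht⟩ : ∃ t, t = Real.log m := ⟨_, rfl⟩
  obtain ⟨w, hw⟩ : ∃ w, w = Real.log t := ⟨_, rfl⟩
  have hlen : len k X = l * m ^ k * w ^ 2 / t ^ (k + 1) := by rw [hw, ht, hm, hl]; rfl
  rw [hlen]
  rw [← hl] at a1 a2 a3 a4 ⊢
  rw [← hm] at a2 a3 a4 ⊢
  rw [← ht] at a3 a4 ⊢
  rw [← hw] at a4
  have hl0 : 0 < l := by linarith
  have hm0 : 0 < m := by linarith
  have ht0 : 0 < t := by linarith
  have hmt : m = Real.exp t := by rw [ht, Real.exp_log hm0]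
  rw [one_mul, ← hmt, Real.rpow_natCast]
  have htm : t ≤ m := by
    rw [hmt]
    have := Real.add_one_le_exp t
    linarith
  obtain ⟨j, rfl⟩ : ∃ j, k = j + 2 := ⟨k - 2, by omega⟩
  have e1 : l * m ^ (j + 2) * w ^ 2 / t ^ (j + 2 + 1) / (l * m) = m / t ^ 3 * ((m / t) ^ j * w ^ 2) := by
    rw [div_pow]
    field_simp
    ring
  rw [e1]
  apply le_mul_of_one_le_right (by positivity)
  have h3 : 1 ≤ (m / t) ^ j := one_le_pow₀ (by rw [one_le_div ht0]; exact htm)
  have h4 : 1 ≤ w ^ 2 := one_le_pow₀ (by linarith)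
  nlinarith

/-- comparison of the lengths, and sizes -/
lemma sizes (δ : ℝ) (hδ : 0 < δ) (hδ1 : δ ≤ 1 / 200) (c' : ℝ) (hc' : 0 < c') (hc1 : c' ≤ 1 / 4) (B : ℝ) :
    ∃ X₀ : ℕ, ∀ X : ℕ, X₀ ≤ X → ∀ k : ℕ, 1 ≤ k → k ≤ 3 → ∀ y : ℕ, y = ⌊δ * Real.log X⌋₊ →
      B ≤ y ∧ 2 ≤ 4 * y ∧ 1 ≤ Real.log (Real.log X) ∧ Real.log ((4 * y : ℕ) : ℝ) ≤ Real.log (Real.log X) ∧
      δ / 2 ^ (k + 3) * len k X ≤ Ln k y ∧ 2 ≤ c' * len k X ∧ c' * len k X + 2 ≤ Real.log X ^ 2 := by
  obtain ⟨x₀, hx₀⟩ := ev_t (max (max 100 (4 / δ ^ 2)) (max (4 * (B + 1) / δ) (2 / c')))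
  obtain ⟨X₀, hX₀⟩ := eventually_atTop.1 ((tendsto_natCast_atTop_atTop (R := ℝ)).eventually
    (Real.tendsto_log_atTop.eventually_ge_atTop x₀))
  refine ⟨X₀ + 3, fun X hX k hk1 hk3 y hy => ?_⟩
  obtain ⟨h1, h2, h3, h4⟩ := hx₀ _ (hX₀ X (by omega))
  obtain ⟨l, hl⟩ : ∃ l, l = Real.log (X : ℝ) := ⟨_, rfl⟩
  obtain ⟨m, hm⟩ : ∃ m, m = Real.log l := ⟨_, rfl⟩
  obtain ⟨t, ht⟩ : ∃ t, t = Real.log m := ⟨_, rfl⟩
  obtain ⟨w, hw⟩ : ∃ w, w = Real.log t := ⟨_, rfl⟩
  have hlen : len k X = l * m ^ k * w ^ 2 / t ^ (k + 1) := by rw [hw, ht, hm, hl]; rfl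
  rw [hlen]
  rw [← hl] at h1 h2 h3 h4 hy ⊢
  rw [← hm] at h2 h3 h4 ⊢
  rw [← ht] at h3 h4
  rw [← hw] at h4
  obtain ⟨Q, hQ⟩ : ∃ Q, Q = max (max 100 (4 / δ ^ 2)) (max (4 * (B + 1) / δ) (2 / c')) := ⟨_, rfl⟩
  rw [← hQ] at h1 h2 h3 h4
  have q1 : 100 ≤ Q := by rw [hQ]; exact (le_max_left _ _).trans (le_max_left _ _)
  have q2 : 4 / δ ^ 2 ≤ Q := by rw [hQ]; exact (le_max_right _ _).trans (le_max_left _ _)
  have q3 : 4 * (B + 1) / δ ≤ Q := by rw [hQ]; exact (le_max_left _ _).trans (le_max_right _ _)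
  have q4 : 2 / c' ≤ Q := by rw [hQ]; exact (le_max_right _ _).trans (le_max_right _ _)
  have hl0 : 0 < l := by linarith
  have hm0 : 0 < m := by linarith
  have ht0 : 0 < t := by linarith
  have hw0 : 0 < w := by linarith
  have hyu : (y : ℝ) ≤ δ * l := by rw [hy]; exact Nat.floor_le (by positivity)
  have hyl : δ * l < y + 1 := by rw [hy]; exact Nat.lt_floor_add_one _
  have q2' : 4 ≤ δ ^ 2 * l := by
    rw [div_le_iff₀ (by positivity)] at q2
    nlinarith [sq_nonneg δ]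
  have hδl : 4 ≤ δ * l := by nlinarith
  have hyl2 : δ * l / 2 ≤ y := by linarith
  have hys : √l ≤ y := by
    refine le_trans ?_ hyl2
    rw [Real.sqrt_le_left (by positivity)]
    nlinarith
  have hs1 : 0 < √l := Real.sqrt_pos.2 hl0
  have hy0 : (0 : ℝ) < y := by linarith
  -- logs of y
  have hly1 : m / 2 ≤ Real.log y := by
    rw [hm, ← Real.log_sqrt hl0.le]
    exact Real.log_le_log hs1 hys
  have hyl4 : 4 * (y : ℝ) ≤ l := by nlinarith
  have hly2 : Real.log y ≤ m := by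
    rw [hm]
    exact Real.log_le_log hy0 (by linarith)
  have hly0 : 0 < Real.log y := by linarith
  have hlly1 : t / 2 ≤ Real.log (Real.log y) := by
    have e1 : Real.log (m / 2) = t - Real.log 2 := by rw [Real.log_div (by linarith) (by norm_num), ht]
    have e2 : Real.log (m / 2) ≤ Real.log (Real.log y) := Real.log_le_log (by linarith) hly1
    have := Real.log_two_lt_d9
    linarith
  have hlly2 : Real.log (Real.log y) ≤ t := by
    rw [ht]
    exact Real.log_le_log hly0 hly2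
  have hlly0 : 0 < Real.log (Real.log y) := by linarith
  have hllly : w / 2 ≤ Real.log (Real.log (Real.log y)) := by
    have e1 : Real.log (t / 2) = w - Real.log 2 := by rw [Real.log_div (by linarith) (by norm_num), hw]
    have e2 : Real.log (t / 2) ≤ Real.log (Real.log (Real.log y)) := Real.log_le_log (by linarith) hlly1
    have := Real.log_two_lt_d9
    linarith
  have hwt : w ≤ t := by
    rw [hw]
    have := Real.log_le_sub_one_of_pos ht0
    linarith
  have hmt : m = Real.exp t := by rw [ht, Real.exp_log hm0]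
  have hlm : l = Real.exp m := by rw [hm, Real.exp_log hl0]
  refine ⟨?_, ?_, by linarith, ?_, ?_, ?_, ?_⟩
  · rw [div_le_iff₀ hδ] at q3
    nlinarith
  · have : (2 : ℝ) ≤ ((4 * y : ℕ) : ℝ) := by push_cast; linarith
    exact_mod_cast this
  · rw [hm]
    push_cast
    exact Real.log_le_log (by positivity) hyl4
  · have e1 : δ / 2 ^ (k + 3) * (l * m ^ k * w ^ 2 / t ^ (k + 1)) = (δ * l / 2) * (m / 2) ^ k * (w / 2) ^ 2 / t ^ (k + 1) := by
      rw [div_pow, div_pow, pow_add 2 k 3]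
      field_simp
    rw [e1]
    unfold Ln
    apply div_le_div₀ (by positivity) _ (by positivity) (pow_le_pow_left₀ hlly0.le hlly2 _)
    gcongr
  · have h5 : 1 ≤ m ^ k * w ^ 2 / t ^ (k + 1) := by
      rw [le_div_iff₀ (by positivity), one_mul]
      have h6 : t ^ 2 ≤ m := by
        rw [hmt]
        have h7 := Real.pow_div_factorial_le_exp t ht0.le 3
        have h8 : t ^ 2 ≤ t ^ 3 / (Nat.factorial 3 : ℕ) := by
          rw [le_div_iff₀ (by positivity)]
          have : ((Nat.factorial 3 : ℕ) : ℝ) = 6 := by norm_num [Nat.factorial]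
          rw [this, pow_succ t 2]
          have : (0 : ℝ) ≤ t ^ 2 := by positivity
          nlinarith
        linarith
      have h7 : 1 ≤ w ^ 2 := one_le_pow₀ (by linarith)
      calc t ^ (k + 1) ≤ t ^ (2 * k) := pow_le_pow_right₀ (by linarith) (by omega)
        _ = (t ^ 2) ^ k := by rw [pow_mul]
        _ ≤ m ^ k := pow_le_pow_left₀ (by positivity) h6 k
        _ = m ^ k * 1 := (mul_one _).symm
        _ ≤ m ^ k * w ^ 2 := mul_le_mul_of_nonneg_left h7 (by positivity)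
    have h6 : 2 ≤ c' * l := by
      rw [div_le_iff₀ hc'] at q4
      nlinarith
    have e1 : c' * (l * m ^ k * w ^ 2 / t ^ (k + 1)) = (c' * l) * (m ^ k * w ^ 2 / t ^ (k + 1)) := by ring
    rw [e1]
    nlinarith
  · have h5 : m ^ k * w ^ 2 / t ^ (k + 1) ≤ m ^ 3 := by
      rw [div_le_iff₀ (by positivity)]
      have h6 : m ^ k ≤ m ^ 3 := pow_le_pow_right₀ (by linarith) hk3
      have h7 : w ^ 2 ≤ t ^ (k + 1) := by
        calc w ^ 2 ≤ t ^ 2 := pow_le_pow_left₀ hw0.le hwt 2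
          _ ≤ t ^ (k + 1) := pow_le_pow_right₀ (by linarith) (by omega)
      exact mul_le_mul h6 h7 (by positivity) (by positivity)
    have h6 : m ^ 3 ≤ l := by
      rw [hlm]
      have h7 := Real.pow_div_factorial_le_exp m hm0.le 4
      have h8 : m ^ 3 ≤ m ^ 4 / (Nat.factorial 4 : ℕ) := by
        rw [le_div_iff₀ (by positivity)]
        have : ((Nat.factorial 4 : ℕ) : ℝ) = 24 := by norm_num [Nat.factorial]
        rw [this, pow_succ m 3]
        have : (0 : ℝ) ≤ m ^ 3 := by positivity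
        nlinarith
      linarith
    have e1 : c' * (l * m ^ k * w ^ 2 / t ^ (k + 1)) = (c' * l) * (m ^ k * w ^ 2 / t ^ (k + 1)) := by ring
    rw [e1]
    have h7 : (c' * l) * (m ^ k * w ^ 2 / t ^ (k + 1)) ≤ (1 / 4 * l) * l := by
      apply mul_le_mul _ (h5.trans h6) (by positivity) (by positivity)
      gcongr
    nlinarith

end Pool.Agent.W2helper63.LG
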