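import Pool.Agent.W2helper63.LG.Hc
import Pool.Agent.W2helper63.LG.Crt

set_option autoImplicit false

/-! The members of an interval in the chosen class. -/

namespace Pool.Agent.W2helper63.LG
open Finset Filter Topology

/-- covered values at the distance at most `L` from `u` -/
def Cov (L z : ℕ) (u a : ℤ) : Prop :=
  ∀ i : ℤ, |i| ≤ L → ∃ p : ℕ, p.Prime ∧ 3 ≤ p ∧ p ≤ z ∧ (p : ℤ) ∣ (u + i) ^ 2 + a ∧ (p : ℤ) < |(u + i) ^ 2 + a|

lemma card_small (c W : ℤ) (hW : W ≠ 0) (N H : ℕ) :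
    #((Icc 1 H).filter (fun t : ℕ => |c + W * (t : ℤ)| ≤ N)) ≤ 2 * N + 1 := by
  classical
  have h1 : #((Icc 1 H).filter (fun t : ℕ => |c + W * (t : ℤ)| ≤ N)) ≤ #(Icc (-(N : ℤ)) N) := by
    apply card_le_card_of_injOn (fun t : ℕ => c + W * (t : ℤ))
    · intro t ht
      rw [mem_coe, mem_filter] at ht
      rw [mem_coe, mem_Icc, ← abs_le]
      exact ht.2
    · intro t _ t' _ h
      simp only at h
      have h2 : W * (t : ℤ) = W * (t' : ℤ) := by linarith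
      exact_mod_cast mul_left_cancel₀ hW h2
  rw [Int.card_Icc] at h1
  omega

open Classical in
theorem members : ∃ c : ℝ, 0 < c ∧ ∀ δ : ℝ, 0 < δ → δ ≤ 1 / 200 → ∃ X₀ : ℕ, ∀ X : ℕ, X₀ ≤ X → ∀ y : ℕ, y = ⌊δ * Real.log X⌋₊ →
    ∀ L : ℕ, (L : ℝ) ≤ Real.log X ^ 2 → ∀ u A b : ℤ, ∀ M : ℕ, √X / 2 ≤ M → -(X : ℤ) ≤ b → b + M ≤ X →
    (∀ a : ℤ, (Wm (4 * y) : ℤ) ∣ a - A → ∀ i : ℤ, |i| ≤ L → ∃ p : ℕ, p.Prime ∧ 3 ≤ p ∧ p ≤ 4 * y ∧ (p : ℤ) ∣ (u + i) ^ 2 + a) →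
    (M : ℝ) / (4 * Wm (4 * y)) ≤ #((Ioc b (b + M)).filter (fun a : ℤ => GoodH c (4 * y) (-a) ∧ Cov L (4 * y) u a)) := by
  obtain ⟨c, hc, X₁, hgood⟩ := hgood
  refine ⟨c, hc, fun δ hδ hδ1 => ?_⟩
  obtain ⟨X₂, hX₂⟩ := eventually_atTop.1 (tendsto_natCast_atTop_atTop.eventually
    (ev_log 6 (1 / 50) (by norm_num) (max 10000 (4 / δ ^ 2))))
  refine ⟨X₁ + X₂ + 3, fun X hX y hy L hL u A b M hM hb1 hb2 hcov => ?_⟩
  obtain ⟨hl1, hl2⟩ := hX₂ X (by omega)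
  obtain ⟨l, hl⟩ : ∃ l, l = Real.log (X : ℝ) := ⟨_, rfl⟩
  rw [← hl] at hl1 hl2 hL hy
  have m1 : (10000 : ℝ) ≤ l := (le_max_left _ _).trans hl1
  have m2 : 4 / δ ^ 2 ≤ l := (le_max_right _ _).trans hl1
  have hX1 : (1 : ℝ) ≤ X := by exact_mod_cast (by omega : 1 ≤ X)
  have hX0 : (0 : ℝ) < X := by linarith
  have hy1 : (y : ℝ) ≤ δ * l := by rw [hy]; exact Nat.floor_le (by positivity)
  have hy2 : δ * l < y + 1 := by rw [hy]; exact Nat.lt_floor_add_one _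
  -- √l ≤ 4 y
  have hsl : √l ≤ δ * l / 2 := by
    rw [Real.sqrt_le_left (by positivity)]
    rw [div_le_iff₀ (by positivity)] at m2
    nlinarith
  have hs1 : (100 : ℝ) ≤ √l := by
    apply Real.le_sqrt_of_sq_le
    linarith
  have hYlo : √l ≤ ((4 * y : ℕ) : ℝ) := by
    push_cast
    linarith
  have hYhi : ((4 * y : ℕ) : ℝ) ≤ l := by
    push_cast
    nlinarith
  -- W
  obtain ⟨W, hW⟩ : ∃ W, W = Wm (4 * y) := ⟨_, rfl⟩
  have hW0 : 0 < W := by rw [hW]; exact Wm_pos _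
  have hW1 : (W : ℝ) ≤ (X : ℝ) ^ (1 / 25 : ℝ) := by
    have h1 : (W : ℝ) ≤ (4 : ℝ) ^ (4 * y) := by rw [hW]; exact_mod_cast Wm_le (4 * y)
    refine h1.trans ?_
    rw [← Real.rpow_natCast, Real.rpow_def_of_pos (by norm_num), Real.rpow_def_of_pos hX0]
    apply Real.exp_le_exp.2
    have h2 : Real.log 4 ≤ 2 := by
      have : Real.log 4 = 2 * Real.log 2 := by
        rw [show (4 : ℝ) = 2 ^ 2 by norm_num, Real.log_pow]; norm_num
      have := Real.log_two_lt_d9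
      linarith
    have h3 : ((4 * y : ℕ) : ℝ) ≤ l / 50 := by
      push_cast
      nlinarith
    have h4 : (0 : ℝ) ≤ ((4 * y : ℕ) : ℝ) := Nat.cast_nonneg _
    rw [← hl]
    calc Real.log 4 * ((4 * y : ℕ) : ℝ) ≤ 2 * (l / 50) := mul_le_mul h2 h3 h4 (by norm_num)
      _ = _ := by ring
  have hWr0 : (0 : ℝ) < W := by exact_mod_cast hW0
  rw [← hW] at hcov ⊢
  obtain ⟨H, hH⟩ : ∃ H, H = M / W := ⟨_, rfl⟩
  have hWH : W * H ≤ M := by rw [hH]; exact Nat.mul_div_le M W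
  have hWH2 : (M : ℝ) / W < H + 1 := by
    rw [div_lt_iff₀ hWr0, hH]
    have := Nat.lt_mul_div_succ M hW0
    have h2 : (M : ℝ) < W * ((M / W : ℕ) + 1 : ℕ) := by exact_mod_cast this
    push_cast at h2
    linarith
  have hMX : (X : ℝ) ^ (12 / 25 : ℝ) ≤ M := by
    have h1 : (X : ℝ) ^ (12 / 25 : ℝ) * 2 ≤ √X := by
      have h2 : (2 : ℝ) ≤ (X : ℝ) ^ (1 / 50 : ℝ) := by
        refine le_trans ?_ hl2
        have : l ≤ l ^ 6 := le_self_pow₀ (by linarith) (by norm_num)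
        linarith
      calc (X : ℝ) ^ (12 / 25 : ℝ) * 2 ≤ (X : ℝ) ^ (12 / 25 : ℝ) * (X : ℝ) ^ (1 / 50 : ℝ) :=
            mul_le_mul_of_nonneg_left h2 (Real.rpow_nonneg hX0.le _)
        _ = √X := by
            rw [← Real.rpow_add hX0, Real.sqrt_eq_rpow]
            norm_num
    linarith
  -- H is large
  have hHbig : (X : ℝ) ^ (11 / 25 : ℝ) ≤ H + 1 := by
    have h1 : (X : ℝ) ^ (11 / 25 : ℝ) ≤ M / W := by
      rw [le_div_iff₀ hWr0]
      calc (X : ℝ) ^ (11 / 25 : ℝ) * W ≤ (X : ℝ) ^ (11 / 25 : ℝ) * (X : ℝ) ^ (1 / 25 : ℝ) :=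
            mul_le_mul_of_nonneg_left hW1 (Real.rpow_nonneg hX0.le _)
        _ = (X : ℝ) ^ (12 / 25 : ℝ) := by
            rw [← Real.rpow_add hX0]
            norm_num
        _ ≤ M := hMX
    linarith
  obtain ⟨B, hB⟩ : ∃ B, B = (X : ℝ) ^ (1 / 50 : ℝ) := ⟨_, rfl⟩
  rw [← hB] at hl2
  have hl6 : l ≤ l ^ 6 := le_self_pow₀ (by linarith) (by norm_num)
  have hBB : (X : ℝ) ^ (2 / 5 : ℝ) * B ≤ (X : ℝ) ^ (11 / 25 : ℝ) := by
    rw [hB, ← Real.rpow_add hX0]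
    exact Real.rpow_le_rpow_of_exponent_le hX1 (by norm_num)
  have hB1 : 10000 ≤ B := by linarith
  have hX25 : B ≤ (X : ℝ) ^ (2 / 5 : ℝ) := by
    rw [hB]
    exact Real.rpow_le_rpow_of_exponent_le hX1 (by norm_num)
  have hHlo : (X : ℝ) ^ (2 / 5 : ℝ) ≤ H := by nlinarith
  have hHB : 100 * l ^ 6 ≤ H := by
    have : B * B ≤ (X : ℝ) ^ (2 / 5 : ℝ) * B := mul_le_mul_of_nonneg_right hX25 (by linarith)
    nlinarith
  have hHX : H ≤ X := by
    have hXM : M ≤ 2 * X := by omega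
    have h1 : (H : ℝ) ≤ X := by
      have h2 : H * W ≤ M := by rw [mul_comm]; exact hWH
      by_contra hcon
      push Not at hcon
      have h3 : X < H := by exact_mod_cast hcon
      have hW2 : 3 ≤ W := by
        have h5 : 3 ∣ W := by
          rw [hW]
          apply dvd_Wm Nat.prime_three le_rfl
          have : (3 : ℝ) ≤ ((4 * y : ℕ) : ℝ) := by linarith
          exact_mod_cast this
        exact Nat.le_of_dvd hW0 h5
      nlinarith
    exact_mod_cast h1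
  -- the sequence
  obtain ⟨a₀, ha₀⟩ : ∃ a₀ : ℤ, a₀ = b - (b - A) % W := ⟨_, rfl⟩
  have hmod0 : 0 ≤ (b - A) % (W : ℤ) := Int.emod_nonneg _ (by exact_mod_cast hW0.ne')
  have hmod1 : (b - A) % (W : ℤ) < W := Int.emod_lt_of_pos _ (by exact_mod_cast hW0)
  have hdvd : (W : ℤ) ∣ a₀ - A := by
    rw [ha₀]
    have := Int.dvd_self_sub_emod (x := b - A) (m := (W : ℤ))
    have e : b - (b - A) % (W : ℤ) - A = b - A - (b - A) % (W : ℤ) := by ring
    rw [e]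
    exact this
  have hWHz : (W : ℤ) * H ≤ M := by exact_mod_cast hWH
  have hrange : ∀ t ∈ Icc 1 H, b < a₀ + W * (t : ℤ) ∧ a₀ + W * (t : ℤ) ≤ b + M := by
    intro t ht
    rw [mem_Icc] at ht
    have hWz : (0 : ℤ) < W := by exact_mod_cast hW0
    have h1 : (W : ℤ) * 1 ≤ W * (t : ℤ) := mul_le_mul_of_nonneg_left (by exact_mod_cast ht.1) hWz.le
    have h2 : (W : ℤ) * (t : ℤ) ≤ W * H := mul_le_mul_of_nonneg_left (by exact_mod_cast ht.2) hWz.le
    constructor <;> linarith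
  obtain ⟨Ex, hE1, hE2⟩ := hgood X (by omega) (4 * y) (by rw [← hl]; exact hYlo) (by rw [← hl]; exact hYhi) W hW0
    (hW1.trans (Real.rpow_le_rpow_of_exponent_le hX1 (by norm_num)))
    (fun p hp hpW => by rw [hW] at hpW; exact le_of_dvd_Wm hp hpW)
    (-a₀) (-(W : ℤ)) (by rw [Int.natAbs_neg, Int.natAbs_natCast]) H hHlo hHX
    (fun k hk => by
      obtain ⟨h1, h2⟩ := hrange k hk
      have e : -a₀ + -(W : ℤ) * (k : ℤ) = -(a₀ + W * (k : ℤ)) := by ring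
      rw [e]
      omega)
  -- small values
  obtain ⟨Ey, hEy⟩ : ∃ Ey, Ey = (Icc (-(L : ℤ)) L).biUnion (fun i =>
    (Icc 1 H).filter (fun t : ℕ => |((u + i) ^ 2 + a₀) + (W : ℤ) * (t : ℤ)| ≤ (4 * y : ℕ))) := ⟨_, rfl⟩
  have hEyc : (#Ey : ℝ) ≤ H / 4 := by
    have h1 : #Ey ≤ ∑ _i ∈ Icc (-(L : ℤ)) L, (2 * (4 * y) + 1) := by
      rw [hEy]
      refine card_biUnion_le.trans (sum_le_sum fun i _ => ?_)
      exact card_small _ _ (by exact_mod_cast hW0.ne') _ _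
    rw [sum_const, Int.card_Icc, smul_eq_mul, show ((L : ℤ) + 1 - -(L : ℤ)).toNat = 2 * L + 1 by omega] at h1
    have h2 : (#Ey : ℝ) ≤ (2 * L + 1) * (2 * (4 * y) + 1) := by exact_mod_cast h1
    have h3 : (2 * (L : ℝ) + 1) ≤ 3 * l ^ 2 := by nlinarith
    have h4 : (2 * (4 * (y : ℝ)) + 1) ≤ 3 * l := by
      push_cast at hYhi
      linarith
    have h5 : (2 * (L : ℝ) + 1) * (2 * (4 * (y : ℝ)) + 1) ≤ (3 * l ^ 2) * (3 * l) :=
      mul_le_mul h3 h4 (by positivity) (by positivity)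
    have h6 : l ^ 3 ≤ l ^ 6 := pow_le_pow_right₀ (by linarith) (by norm_num)
    have h7 : (3 * l ^ 2) * (3 * l) = 9 * l ^ 3 := by ring
    rw [h7] at h5
    have h8 : 0 ≤ l ^ 3 := by positivity
    linarith
  -- the good members
  obtain ⟨T, hT⟩ : ∃ T, T = Icc 1 H \ (Ex ∪ Ey) := ⟨_, rfl⟩
  have hTc : (H : ℝ) / 2 ≤ #T := by
    have h1 : #(Icc 1 H) ≤ #T + #(Ex ∪ Ey) := by
      rw [hT]
      exact card_le_card_sdiff_add_card
    rw [Nat.card_Icc, Nat.add_sub_cancel] at h1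
    have h2 := card_union_le Ex Ey
    have h3 : (H : ℝ) ≤ #T + (#Ex + #Ey) := by exact_mod_cast h1.trans (Nat.add_le_add_left h2 _)
    linarith
  have hinj : #T ≤ #((Ioc b (b + M)).filter (fun a : ℤ => GoodH c (4 * y) (-a) ∧ Cov L (4 * y) u a)) := by
    apply card_le_card_of_injOn (fun t : ℕ => a₀ + (W : ℤ) * (t : ℤ))
    · intro t ht
      rw [mem_coe, hT, Finset.mem_sdiff, Finset.mem_union, not_or] at ht
      obtain ⟨ht1, ht2, ht3⟩ := ht
      rw [mem_coe, mem_filter, mem_Ioc]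
      refine ⟨hrange t ht1, ?_, ?_⟩
      · have h1 := hE2 t ht1 ht2
        have e : -a₀ + -(W : ℤ) * (t : ℤ) = -(a₀ + W * (t : ℤ)) := by ring
        rw [e] at h1
        exact h1
      · intro i hi
        have hdv : (W : ℤ) ∣ a₀ + W * (t : ℤ) - A := by
          have e : a₀ + W * (t : ℤ) - A = (a₀ - A) + W * (t : ℤ) := by ring
          rw [e]
          exact dvd_add hdvd (Dvd.intro _ rfl)
        obtain ⟨p, hp, h3, h4, h5⟩ := hcov _ hdv i hi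
        refine ⟨p, hp, h3, h4, h5, ?_⟩
        have h6 : ¬ |((u + i) ^ 2 + a₀) + (W : ℤ) * (t : ℤ)| ≤ (4 * y : ℕ) := by
          intro h
          apply ht3
          rw [hEy, mem_biUnion]
          refine ⟨i, ?_, ?_⟩
          · rw [mem_Icc, ← abs_le]
            exact hi
          · rw [mem_filter]
            exact ⟨ht1, h⟩
        push Not at h6
        have e : (u + i) ^ 2 + (a₀ + W * (t : ℤ)) = ((u + i) ^ 2 + a₀) + (W : ℤ) * (t : ℤ) := by ring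
        rw [e]
        refine lt_of_le_of_lt ?_ h6
        exact_mod_cast h4
    · intro t _ t' _ h
      simp only at h
      have h2 : (W : ℤ) * (t : ℤ) = W * (t' : ℤ) := by linarith
      exact_mod_cast mul_left_cancel₀ (by exact_mod_cast hW0.ne') h2
  have hfin : (#T : ℝ) ≤ #((Ioc b (b + M)).filter (fun a : ℤ => GoodH c (4 * y) (-a) ∧ Cov L (4 * y) u a)) := by
    exact_mod_cast hinj
  refine le_trans ?_ hfin
  refine le_trans ?_ hTc
  have h1 : (M : ℝ) / (4 * W) = M / W / 4 := by field_simp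
  rw [h1]
  have h2 : 1 ≤ l ^ 6 := one_le_pow₀ (by linarith)
  linarith

end Pool.Agent.W2helper63.LG
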