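import Pool.Agent.W2helper63.LG.Med
import Pool.Agent.H312R2.TwoPrimes

set_option autoImplicit false

/-! Greedy choices of residue classes. -/

namespace Pool.Agent.W2helper63.LG
open Finset Filter Topology
open Pool.Agent.H318R2.Cr (Pz V mem_Pz V_pos cz_bounds one_sub_inv_pos)
open Pool.Agent.H398R2.RK (greedy_all)

/-- the small odd primes -/
noncomputable def Sm (y : ℝ) : Finset ℕ := (Icc 3 ⌊Real.exp (V0 y)⌋₊).filter Nat.Prime

lemma mem_Sm {y : ℝ} {p : ℕ} (hp : p.Prime) (h3 : 3 ≤ p) : p ∈ Sm y ↔ Real.log p ≤ V0 y := by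
  have hp0 : (0 : ℝ) < p := by exact_mod_cast hp.pos
  rw [Sm, mem_filter, mem_Icc, Nat.le_floor_iff (Real.exp_pos _).le, Real.log_le_iff_le_exp hp0]
  constructor
  · rintro ⟨⟨_, h⟩, _⟩; exact h
  · intro h; exact ⟨⟨h3, h⟩, hp⟩

lemma Sm_prime {y : ℝ} {p : ℕ} (h : p ∈ Sm y) : p.Prime ∧ 3 ≤ p := by
  rw [Sm, mem_filter, mem_Icc] at h
  exact ⟨h.2, h.1.1⟩

lemma V0_facts (c : ℝ) : ∃ y₀ : ℝ, ∀ y : ℝ, y₀ ≤ y → c ≤ y ∧ c ≤ Real.log y ∧ c ≤ Real.log (Real.log y) ∧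
    c ≤ Real.log (Real.log (Real.log y)) ∧ 2 ≤ V0 y ∧ V0 y ≤ Real.log y / 2 := by
  obtain ⟨y₀, h⟩ := ev_t (max c 40)
  refine ⟨y₀, fun y hy => ?_⟩
  obtain ⟨h1, h2, h3, h4⟩ := h y hy
  have c1 : c ≤ max c 40 := le_max_left _ _
  have c2 : (40 : ℝ) ≤ max c 40 := le_max_right _ _
  obtain ⟨l, hl⟩ : ∃ l, l = Real.log y := ⟨_, rfl⟩
  obtain ⟨t, ht⟩ : ∃ t, t = Real.log l := ⟨_, rfl⟩
  have hV : V0 y = l * Real.log t / (10 * t) := by rw [ht, hl]; rfl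
  rw [hV]
  rw [← hl] at h2 h3 h4 ⊢
  rw [← ht] at h3 h4 ⊢
  have ht0 : 0 < t := by linarith
  have hl0 : 0 < l := by linarith
  have hlt : l = Real.exp t := by rw [ht, Real.exp_log hl0]
  have hq : t ^ 2 / 2 ≤ l := by
    rw [hlt]
    have := Real.quadratic_le_exp_of_nonneg (x := t) ht0.le
    nlinarith
  have h5 : Real.log t ≤ t := by
    have := Real.log_le_sub_one_of_pos ht0
    linarith
  refine ⟨by linarith, by linarith, by linarith, by linarith, ?_, ?_⟩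
  · rw [le_div_iff₀ (by positivity)]
    nlinarith
  · rw [div_le_div_iff₀ (by positivity) (by norm_num)]
    nlinarith

/-- the product over the small primes -/
lemma sm_prod : ∃ C : ℝ, 0 < C ∧ ∃ y₀ : ℝ, ∀ y : ℝ, y₀ ≤ y →
    ∏ p ∈ Sm y, (1 - 1 / (p : ℝ)) ≤ C * Real.log (Real.log y) / (Real.log y * Real.log (Real.log (Real.log y))) := by
  obtain ⟨c₁, c₂, hc₁, hc₁₂, hV⟩ := cz_bounds
  obtain ⟨y₀, hy₀⟩ := V0_facts 2
  have hc₂ : 0 < c₂ := hc₁.trans_le hc₁₂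
  refine ⟨40 * c₂, by positivity, y₀, fun y hy => ?_⟩
  obtain ⟨h1, h2, h3, h4, h5, h6⟩ := hy₀ y hy
  obtain ⟨v, hv⟩ : ∃ v : ℕ, v = ⌊Real.exp (V0 y)⌋₊ := ⟨_, rfl⟩
  have hv3 : 3 ≤ v := by
    rw [hv]
    apply Nat.le_floor
    push_cast
    have := Real.add_one_le_exp (V0 y)
    linarith
  have hlv : V0 y / 2 ≤ Real.log v := by
    have h7 : Real.exp (V0 y) < v + 1 := by rw [hv]; exact Nat.lt_floor_add_one _
    have h8 : (3 : ℝ) ≤ v := by exact_mod_cast hv3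
    have h9 : Real.exp (V0 y) ≤ (v : ℝ) ^ 2 := by nlinarith
    have h10 := Real.log_le_log (Real.exp_pos _) h9
    rw [Real.log_exp, Real.log_pow] at h10
    push_cast at h10
    linarith
  have hsplit : V v = 1 / 2 * ∏ p ∈ Sm y, (1 - 1 / (p : ℝ)) := by
    have e1 : Pz v = insert 2 (Sm y) := by
      ext p
      rw [mem_Pz, mem_insert, Sm, mem_filter, mem_Icc, ← hv]
      constructor
      · rintro ⟨hp, hpv⟩
        rcases eq_or_lt_of_le hp.two_le with h | h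
        · exact Or.inl h.symm
        · exact Or.inr ⟨⟨by omega, hpv⟩, hp⟩
      · rintro (h | ⟨⟨h, h'⟩, hp⟩)
        · rw [h]; exact ⟨Nat.prime_two, by omega⟩
        · exact ⟨hp, h'⟩
    have e2 : 2 ∉ Sm y := fun h => by
      have := (Sm_prime h).2
      omega
    unfold V
    rw [e1, prod_insert e2]
    norm_num
  have h7 := (hV v (by omega)).2
  rw [hsplit] at h7
  have hP0 : 0 ≤ ∏ p ∈ Sm y, (1 - 1 / (p : ℝ)) := prod_nonneg fun p hp => (one_sub_inv_pos (Sm_prime hp).1).le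
  obtain ⟨P, hP⟩ : ∃ P, P = ∏ p ∈ Sm y, (1 - 1 / (p : ℝ)) := ⟨_, rfl⟩
  rw [← hP] at h7 hP0 ⊢
  have h8 : P * V0 y ≤ 4 * c₂ := by nlinarith
  obtain ⟨l, hl⟩ : ∃ l, l = Real.log y := ⟨_, rfl⟩
  obtain ⟨t, ht⟩ : ∃ t, t = Real.log l := ⟨_, rfl⟩
  have hVd : V0 y = l * Real.log t / (10 * t) := by rw [ht, hl]; rfl
  rw [hVd] at h8
  rw [← hl] at h2 h3 h4 ⊢
  rw [← ht] at h3 h4 ⊢
  have ht0 : 0 < t := by linarith
  have hl0 : 0 < l := by linarith
  have hlt0 : 0 < Real.log t := by linarith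
  rw [le_div_iff₀ (by positivity)]
  rw [mul_div_assoc', div_le_iff₀ (by positivity)] at h8
  linarith

/-- `∏ n² / (n² - 1)` -/
lemma tele2 (v : ℕ) (hv : 2 ≤ v) : ∏ n ∈ Icc 3 v, ((n : ℝ) ^ 2 / ((n : ℝ) ^ 2 - 1)) = 3 * v / (2 * ((v : ℝ) + 1)) := by
  induction v, hv using Nat.le_induction with
  | base => norm_num
  | succ k hk ih =>
    rw [Finset.prod_Icc_succ_top (by omega), ih]
    have hk2 : (2 : ℝ) ≤ k := by exact_mod_cast hk
    push_cast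
    have h1 : ((k : ℝ) + 1) ^ 2 - 1 ≠ 0 := by
      have : 0 < ((k : ℝ) + 1) ^ 2 - 1 := by nlinarith
      exact this.ne'
    have h2 : (k : ℝ) + 1 ≠ 0 := by positivity
    have h3 : (k : ℝ) + 1 + 1 ≠ 0 := by positivity
    field_simp
    ring

lemma sm_prod2 (y : ℝ) : ∏ p ∈ Sm y, (1 - 2 / ((p : ℝ) + 1)) ≤ 2 * (∏ p ∈ Sm y, (1 - 1 / (p : ℝ))) ^ 2 := by
  have e1 : ∀ p ∈ Sm y, (1 - 2 / ((p : ℝ) + 1)) = (1 - 1 / (p : ℝ)) ^ 2 * ((p : ℝ) ^ 2 / ((p : ℝ) ^ 2 - 1)) := by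
    intro p hp
    have hp3 : (3 : ℝ) ≤ p := by exact_mod_cast (Sm_prime hp).2
    have h1 : (p : ℝ) ≠ 0 := by linarith
    have h2 : (p : ℝ) + 1 ≠ 0 := by positivity
    have h3 : (p : ℝ) ^ 2 - 1 ≠ 0 := by
      have : 0 < (p : ℝ) ^ 2 - 1 := by nlinarith
      exact this.ne'
    field_simp
    ring
  rw [prod_congr rfl e1, prod_mul_distrib, prod_pow, mul_comm]
  apply mul_le_mul_of_nonneg_right _ (sq_nonneg _)
  rcases Nat.lt_or_ge ⌊Real.exp (V0 y)⌋₊ 2 with h | h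
  · have : Sm y = ∅ := by
      rw [Sm, Finset.Icc_eq_empty (by omega), filter_empty]
    rw [this]
    norm_num
  · have h1 : ∏ p ∈ Sm y, ((p : ℝ) ^ 2 / ((p : ℝ) ^ 2 - 1)) ≤ ∏ n ∈ Icc 3 ⌊Real.exp (V0 y)⌋₊, ((n : ℝ) ^ 2 / ((n : ℝ) ^ 2 - 1)) := by
      have hone : ∀ n ∈ Icc 3 ⌊Real.exp (V0 y)⌋₊, (1 : ℝ) ≤ (n : ℝ) ^ 2 / ((n : ℝ) ^ 2 - 1) := by
        intro n hn
        rw [mem_Icc] at hn
        have hn3 : (3 : ℝ) ≤ n := by exact_mod_cast hn.1
        rw [le_div_iff₀ (by nlinarith)]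
        linarith
      rw [Sm, ← prod_sdiff (filter_subset Nat.Prime (Icc 3 ⌊Real.exp (V0 y)⌋₊))]
      have h2 : (1 : ℝ) ≤ ∏ n ∈ Icc 3 ⌊Real.exp (V0 y)⌋₊ \ (Icc 3 ⌊Real.exp (V0 y)⌋₊).filter Nat.Prime,
          ((n : ℝ) ^ 2 / ((n : ℝ) ^ 2 - 1)) := by
        calc (1 : ℝ) = ∏ _n ∈ Icc 3 ⌊Real.exp (V0 y)⌋₊ \ (Icc 3 ⌊Real.exp (V0 y)⌋₊).filter Nat.Prime, (1 : ℝ) := by
              rw [prod_const_one]
          _ ≤ _ := Finset.prod_le_prod (fun _ _ => zero_le_one) (fun n hn => hone n (mem_sdiff.1 hn).1)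
      have h3 : (0 : ℝ) ≤ ∏ n ∈ (Icc 3 ⌊Real.exp (V0 y)⌋₊).filter Nat.Prime, ((n : ℝ) ^ 2 / ((n : ℝ) ^ 2 - 1)) :=
        prod_nonneg fun n hn => by
          have := hone n (mem_filter.1 hn).1
          linarith
      exact le_mul_of_one_le_left h3 h2
    refine h1.trans ?_
    rw [tele2 _ h, div_le_iff₀ (by positivity)]
    have : (0 : ℝ) ≤ (⌊Real.exp (V0 y)⌋₊ : ℝ) := Nat.cast_nonneg _
    linarith

/-- every integer is a square of a small number modulo `p`, up to the sign: the squares -/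
lemma small_sq (p : ℕ) (hp : p.Prime) (h3 : 3 ≤ p) (x : ℤ) : ∃ v ∈ range ((p + 1) / 2), (p : ℤ) ∣ x ^ 2 - (v : ℤ) ^ 2 := by
  have : NeZero p := ⟨hp.ne_zero⟩
  refine ⟨((x : ZMod p).valMinAbs).natAbs, ?_, ?_⟩
  · rw [mem_range]
    have h1 := ZMod.natAbs_valMinAbs_le (x : ZMod p)
    have h2 : p % 2 = 1 := by
      rcases hp.eq_two_or_odd with h | h
      · omega
      · exact h
    omega
  · rw [Int.natAbs_sq, ← ZMod.intCast_zmod_eq_zero_iff_dvd]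
    push_cast
    rw [sub_self]

/-- Greedy choice of classes of constant terms. -/
theorem greedy_sq (S : Finset ℕ) (hS : ∀ p ∈ S, p.Prime ∧ 3 ≤ p) (u : ℤ) (R : Finset ℤ) :
    ∃ α : ℕ → ℤ,
      ((R.filter (fun i => ∀ p ∈ S, ¬ (p : ℤ) ∣ (u + i) ^ 2 + α p)).card : ℝ) ≤
        R.card * ∏ p ∈ S, (1 - 2 / ((p : ℝ) + 1)) := by
  classical
  induction S using Finset.induction_on generalizing R with
  | empty => exact ⟨fun _ => 0, by simp⟩
  | insert p S hpS ih =>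
    have hp := hS p (mem_insert_self _ _)
    have hp3 : (3 : ℝ) ≤ p := by exact_mod_cast hp.2
    have havg : ∃ v ∈ range ((p + 1) / 2), ((R.filter (fun i => ¬ (p : ℤ) ∣ (u + i) ^ 2 - (v : ℤ) ^ 2)).card : ℝ) ≤
        R.card * (1 - 2 / ((p : ℝ) + 1)) := by
      by_contra hcon
      push Not at hcon
      have hne : (range ((p + 1) / 2)).Nonempty := ⟨0, mem_range.2 (by omega)⟩
      have h1 := sum_lt_sum_of_nonempty hne hcon
      rw [sum_const, card_range, nsmul_eq_mul] at h1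
      have h2 : ∑ v ∈ range ((p + 1) / 2), ((R.filter (fun i => ¬ (p : ℤ) ∣ (u + i) ^ 2 - (v : ℤ) ^ 2)).card : ℝ) =
          ∑ i ∈ R, (((range ((p + 1) / 2)).filter (fun v : ℕ => ¬ (p : ℤ) ∣ (u + i) ^ 2 - (v : ℤ) ^ 2)).card : ℝ) := by
        simp_rw [card_filter]
        push_cast
        rw [sum_comm]
      have h3 : ∀ i ∈ R, (((range ((p + 1) / 2)).filter (fun v : ℕ => ¬ (p : ℤ) ∣ (u + i) ^ 2 - (v : ℤ) ^ 2)).card : ℝ) ≤
          (((p + 1) / 2 : ℕ) : ℝ) - 1 := by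
        intro i _
        obtain ⟨v, hv, hd⟩ := small_sq p hp.1 hp.2 (u + i)
        have h4 : (range ((p + 1) / 2)).filter (fun v : ℕ => ¬ (p : ℤ) ∣ (u + i) ^ 2 - (v : ℤ) ^ 2) ⊆
            (range ((p + 1) / 2)).erase v := by
          intro w hw
          rw [mem_filter] at hw
          rw [mem_erase]
          refine ⟨?_, hw.1⟩
          rintro rfl
          exact hw.2 hd
        have h5 := card_le_card h4
        rw [card_erase_of_mem hv, card_range] at h5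
        have h6 : 1 ≤ (p + 1) / 2 := by omega
        have h7 : (((p + 1) / 2 - 1 : ℕ) : ℝ) = (((p + 1) / 2 : ℕ) : ℝ) - 1 := by
          rw [Nat.cast_sub h6]; simp
        rw [← h7]
        exact_mod_cast h5
      rw [h2] at h1
      have h8 := sum_le_sum h3
      rw [sum_const, nsmul_eq_mul] at h8
      have h9 : (((p + 1) / 2 : ℕ) : ℝ) = ((p : ℝ) + 1) / 2 := by
        have h10 : 2 ∣ p + 1 := by
          rcases hp.1.eq_two_or_odd with h | h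
          · omega
          · omega
        rw [Nat.cast_div h10 (by norm_num)]
        push_cast
        ring
      rw [h9] at h1 h8
      have h10 : ((p : ℝ) + 1) / 2 * ((R.card : ℝ) * (1 - 2 / ((p : ℝ) + 1))) = R.card * (((p : ℝ) + 1) / 2 - 1) := by
        have : (p : ℝ) + 1 ≠ 0 := by positivity
        field_simp
      rw [h10] at h1
      linarith
    obtain ⟨v, hv, hle⟩ := havg
    obtain ⟨α, hα⟩ := ih (fun q hq => hS q (mem_insert_of_mem hq)) (R.filter (fun i => ¬ (p : ℤ) ∣ (u + i) ^ 2 - (v : ℤ) ^ 2))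
    refine ⟨Function.update α p (-(v : ℤ) ^ 2), ?_⟩
    have h8 : R.filter (fun i => ∀ q ∈ insert p S, ¬ (q : ℤ) ∣ (u + i) ^ 2 + Function.update α p (-(v : ℤ) ^ 2) q) ⊆
        (R.filter (fun i => ¬ (p : ℤ) ∣ (u + i) ^ 2 - (v : ℤ) ^ 2)).filter (fun i => ∀ q ∈ S, ¬ (q : ℤ) ∣ (u + i) ^ 2 + α q) := by
      intro i hi
      rw [mem_filter] at hi
      rw [mem_filter, mem_filter]
      refine ⟨⟨hi.1, ?_⟩, ?_⟩
      · have := hi.2 p (mem_insert_self _ _)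
        rwa [Function.update_self, ← sub_eq_add_neg] at this
      · intro q hq
        have h9 : q ≠ p := fun h => hpS (h ▸ hq)
        have := hi.2 q (mem_insert_of_mem hq)
        rwa [Function.update_of_ne h9] at this
    have h10 : 0 ≤ ∏ q ∈ S, (1 - 2 / ((q : ℝ) + 1)) := by
      apply prod_nonneg
      intro q hq
      have hq3 : (3 : ℝ) ≤ q := by exact_mod_cast (hS q (mem_insert_of_mem hq)).2
      have : 2 / ((q : ℝ) + 1) ≤ 1 := by
        rw [div_le_one (by linarith)]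
        linarith
      linarith
    calc _ ≤ (((R.filter (fun i => ¬ (p : ℤ) ∣ (u + i) ^ 2 - (v : ℤ) ^ 2)).filter
            (fun i => ∀ q ∈ S, ¬ (q : ℤ) ∣ (u + i) ^ 2 + α q)).card : ℝ) := by
          exact_mod_cast card_le_card h8
      _ ≤ _ := hα
      _ ≤ R.card * (1 - 2 / ((p : ℝ) + 1)) * ∏ q ∈ S, (1 - 2 / ((q : ℝ) + 1)) := by gcongr
      _ = _ := by rw [prod_insert hpS]; ring

/-- distribution of the survivors among the large primes -/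
lemma assign {α : Type} [DecidableEq α] [Inhabited α] (R : Finset α) (Q : Finset ℕ) (h : #R ≤ #Q) :
    ∃ ψ : ℕ → α, ∀ k ∈ R, ∃ q ∈ Q, ψ q = k := by
  classical
  have h1 : Fintype.card R ≤ Fintype.card Q := by simpa using h
  obtain ⟨e⟩ := Function.Embedding.nonempty_of_card_le h1
  refine ⟨fun q => if h : ∃ k : R, ((e k : Q) : ℕ) = q then (h.choose : α) else default, fun k hk => ?_⟩
  refine ⟨((e ⟨k, hk⟩ : Q) : ℕ), (e ⟨k, hk⟩).2, ?_⟩
  have h2 : ∃ k' : R, ((e k' : Q) : ℕ) = ((e ⟨k, hk⟩ : Q) : ℕ) := ⟨⟨k, hk⟩, rfl⟩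
  simp only
  rw [dif_pos h2]
  have h3 := h2.choose_spec
  have h4 : e h2.choose = e ⟨k, hk⟩ := Subtype.ext h3
  have h5 := e.injective h4
  rw [h5]

end Pool.Agent.W2helper63.LG
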