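import Pool.Agent.R460.SC.So
import Pool.Agent.H318R2.Cr.Prod

set_option autoImplicit false

/-! A lower bound for the Euler product, for most members of a linear sequence of discriminants. -/

namespace Pool.Agent.W2helper63.LG
open Finset Filter Topology
open Pool.Agent.W468.ConjF (SJ PJ PJ_tendsto SJ_add js_abs factor_pos)
open Pool.Agent.Y868.TB (Sol low_count_lin)
open Pool.Agent.R460.SC (tail_gen2 PJ_ge)
open Pool.Agent.H318R2.Cr (Pz V mem_Pz V_pos cz_bounds one_sub_inv_pos)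

/-- the product over the odd primes `w ≤ z` -/
noncomputable def pr (D : ℤ) (z : ℕ) : ℝ := ∏ w ∈ (Icc 3 z).filter Nat.Prime, (1 - (jacobiSym D w : ℝ) / ((w : ℝ) - 1))

lemma pr_split (D : ℤ) {z N : ℕ} (hz : 2 ≤ z) (hN : z ≤ N) : pr D N = pr D z * PJ D z N := by
  have e1 : (Icc 3 N).filter Nat.Prime = (Icc 3 z).filter Nat.Prime ∪ (Ioc z N).filter Nat.Prime := by
    ext p
    rw [mem_union, mem_filter, mem_filter, mem_filter, mem_Icc, mem_Icc, mem_Ioc]
    constructor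
    · rintro ⟨⟨h1, h2⟩, h3⟩
      by_cases h : p ≤ z
      · exact Or.inl ⟨⟨h1, h⟩, h3⟩
      · exact Or.inr ⟨⟨by omega, h2⟩, h3⟩
    · rintro (⟨⟨h1, h2⟩, h3⟩ | ⟨⟨h1, h2⟩, h3⟩)
      · exact ⟨⟨h1, by omega⟩, h3⟩
      · exact ⟨⟨by omega, h2⟩, h3⟩
  have hd : Disjoint ((Icc 3 z).filter Nat.Prime) ((Ioc z N).filter Nat.Prime) := by
    rw [disjoint_left]
    intro p hp hp'
    rw [mem_filter, mem_Icc] at hp
    rw [mem_filter, mem_Ioc] at hp'
    omega
  unfold pr PJ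
  rw [e1, prod_union hd]

/-- `∏ (1 - 1 / (n - 1)²) ≥ 1 / 2` -/
lemma tele (z : ℕ) (hz : 2 ≤ z) : ∏ n ∈ Icc 3 z, (1 - 1 / ((n : ℝ) - 1) ^ 2) = z / (2 * ((z : ℝ) - 1)) := by
  induction z, hz using Nat.le_induction with
  | base => norm_num
  | succ k hk ih =>
    rw [Finset.prod_Icc_succ_top (by omega), ih]
    have hk2 : (2 : ℝ) ≤ k := by exact_mod_cast hk
    have h1 : (k : ℝ) - 1 ≠ 0 := by
      have : (0 : ℝ) < k - 1 := by linarith
      exact this.ne'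
    have h2 : (k : ℝ) ≠ 0 := by linarith
    push_cast
    rw [show (k : ℝ) + 1 - 1 = k by ring]
    field_simp
    ring

lemma pr_low : ∃ c : ℝ, 0 < c ∧ ∀ (D : ℤ) (z : ℕ), 2 ≤ z → c / Real.log z ≤ pr D z := by
  obtain ⟨c₁, c₂, hc₁, -, hV⟩ := cz_bounds
  refine ⟨c₁ / 2, by positivity, fun D z hz => ?_⟩
  have hlz : 0 < Real.log z := Real.log_pos (by exact_mod_cast (by omega : 1 < z))
  have h1 : ∏ w ∈ (Icc 3 z).filter Nat.Prime, ((1 - 1 / (w : ℝ)) * (1 - 1 / ((w : ℝ) - 1) ^ 2)) ≤ pr D z := by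
    unfold pr
    apply Finset.prod_le_prod
    · intro w hw
      rw [mem_filter, mem_Icc] at hw
      have hw3 : (3 : ℝ) ≤ w := by exact_mod_cast hw.1.1
      apply mul_nonneg
      · exact (one_sub_inv_pos hw.2).le
      · have : 1 / ((w : ℝ) - 1) ^ 2 ≤ 1 := by
          rw [div_le_one (by nlinarith)]
          nlinarith
        linarith
    · intro w hw
      rw [mem_filter, mem_Icc] at hw
      have hw3 : (3 : ℝ) ≤ w := by exact_mod_cast hw.1.1
      have hw1 : (0 : ℝ) < w - 1 := by linarith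
      have e1 : (1 - 1 / (w : ℝ)) * (1 - 1 / ((w : ℝ) - 1) ^ 2) = 1 - 1 / ((w : ℝ) - 1) := by
        field_simp
        ring
      rw [e1]
      have h2 := (abs_le.1 (js_abs D w)).2
      have h3 : (jacobiSym D w : ℝ) / ((w : ℝ) - 1) ≤ 1 / ((w : ℝ) - 1) :=
        div_le_div_of_nonneg_right h2 hw1.le
      linarith
  refine le_trans ?_ h1
  rw [prod_mul_distrib]
  have h2 : V z ≤ ∏ w ∈ (Icc 3 z).filter Nat.Prime, (1 - 1 / (w : ℝ)) := by
    unfold V
    have hsub : (Icc 3 z).filter Nat.Prime ⊆ Pz z := by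
      intro w hw
      rw [mem_filter, mem_Icc] at hw
      rw [mem_Pz]
      exact ⟨hw.2, hw.1.2⟩
    rw [← prod_sdiff hsub]
    have h3 : ∏ p ∈ Pz z \ (Icc 3 z).filter Nat.Prime, (1 - 1 / (p : ℝ)) ≤ 1 := by
      apply prod_le_one
      · intro p hp
        exact (one_sub_inv_pos (mem_Pz.1 (mem_sdiff.1 hp).1).1).le
      · intro p _
        have : (0 : ℝ) ≤ 1 / p := by positivity
        linarith
    have h4 : 0 ≤ ∏ w ∈ (Icc 3 z).filter Nat.Prime, (1 - 1 / (w : ℝ)) :=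
      prod_nonneg fun w hw => (one_sub_inv_pos (mem_filter.1 hw).2).le
    nlinarith
  have h3 : (1 : ℝ) / 2 ≤ ∏ w ∈ (Icc 3 z).filter Nat.Prime, (1 - 1 / ((w : ℝ) - 1) ^ 2) := by
    have h4 : ∏ n ∈ Icc 3 z, (1 - 1 / ((n : ℝ) - 1) ^ 2) ≤ ∏ w ∈ (Icc 3 z).filter Nat.Prime, (1 - 1 / ((w : ℝ) - 1) ^ 2) := by
      rw [← prod_sdiff (filter_subset Nat.Prime (Icc 3 z))]
      have hfac : ∀ n ∈ Icc 3 z, 0 ≤ 1 - 1 / ((n : ℝ) - 1) ^ 2 := by
        intro n hn
        rw [mem_Icc] at hn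
        have hw3 : (3 : ℝ) ≤ n := by exact_mod_cast hn.1
        have : 1 / ((n : ℝ) - 1) ^ 2 ≤ 1 := by
          rw [div_le_one (by nlinarith)]
          nlinarith
        linarith
      have h5 : ∏ p ∈ Icc 3 z \ (Icc 3 z).filter Nat.Prime, (1 - 1 / ((p : ℝ) - 1) ^ 2) ≤ 1 := by
        apply prod_le_one
        · intro p hp
          exact hfac p (mem_sdiff.1 hp).1
        · intro p _
          have : (0 : ℝ) ≤ 1 / ((p : ℝ) - 1) ^ 2 := by positivity
          linarith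
      have h6 : 0 ≤ ∏ w ∈ (Icc 3 z).filter Nat.Prime, (1 - 1 / ((w : ℝ) - 1) ^ 2) :=
        prod_nonneg fun w hw => hfac w (mem_filter.1 hw).1
      nlinarith
    rw [tele z hz] at h4
    refine le_trans ?_ h4
    have hz2 : (2 : ℝ) ≤ z := by exact_mod_cast hz
    rw [div_le_div_iff₀ (by norm_num) (by linarith)]
    linarith
  have h5 : c₁ / Real.log z ≤ V z := by
    rw [div_le_iff₀ hlz]
    exact (hV z hz).1
  have h6 : 0 < V z := V_pos z
  calc c₁ / 2 / Real.log z = (c₁ / Real.log z) * (1 / 2) := by ring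
    _ ≤ V z * (1 / 2) := by gcongr
    _ ≤ _ := mul_le_mul h2 h3 (by norm_num) (h6.le.trans h2)

/-- the number of the members `d s²` of a linear sequence with small difference -/
lemma sol_short (α β : ℤ) (hβ : β ≠ 0) (H : ℕ) (d : ℤ) :
    #(Sol (fun k : ℕ => α + β * (k : ℤ)) H d) ≤ Nat.sqrt (β.natAbs * H) + 1 := by
  classical
  have hinj : ∀ k k' : ℕ, α + β * (k : ℤ) = α + β * (k' : ℤ) → k = k' := by
    intro k k' h
    have h1 : β * (k : ℤ) = β * (k' : ℤ) := by linarith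
    have h2 := mul_left_cancel₀ hβ h1
    exact_mod_cast h2
  obtain ⟨g, hg⟩ : ∃ g : ℕ → ℕ, ∀ k ∈ Sol (fun k : ℕ => α + β * (k : ℤ)) H d, α + β * (k : ℤ) = d * ((g k : ℕ) : ℤ) ^ 2 := by
    refine ⟨fun k => if h : ∃ s : ℕ, α + β * (k : ℤ) = d * (s : ℤ) ^ 2 then h.choose else 0, fun k hk => ?_⟩
    rw [Sol, mem_filter] at hk
    simp only
    rw [dif_pos hk.2]
    exact hk.2.choose_spec
  obtain ⟨T, hT⟩ : ∃ T, T = Sol (fun k : ℕ => α + β * (k : ℤ)) H d := ⟨_, rfl⟩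
  rw [← hT] at hg ⊢
  have hTm : ∀ k ∈ T, 1 ≤ k ∧ k ≤ H := by
    intro k hk
    rw [hT, Sol, mem_filter, mem_Icc] at hk
    exact hk.1
  have hgi : Set.InjOn g T := by
    intro k hk k' hk' he
    have h3 := hg k hk
    have h4 := hg k' hk'
    rw [he] at h3
    exact hinj k k' (h3.trans h4.symm)
  rw [← card_image_of_injOn hgi]
  rcases T.eq_empty_or_nonempty with h0 | hne
  · rw [h0]
    simp
  by_cases hd : d = 0
  · have h1 : #T ≤ 1 := by
      rw [card_le_one]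
      intro k hk k' hk'
      have h3 := hg k hk
      have h4 := hg k' hk'
      rw [hd, zero_mul] at h3 h4
      exact hinj k k' (h3.trans h4.symm)
    have := card_image_le (s := T) (f := g)
    omega
  have hne' : (T.image g).Nonempty := hne.image g
  obtain ⟨m, hm⟩ : ∃ m, m = (T.image g).min' hne' := ⟨_, rfl⟩
  have hmm : m ∈ T.image g := by rw [hm]; exact min'_mem _ _
  have hsub : T.image g ⊆ Icc m (m + Nat.sqrt (β.natAbs * H)) := by
    intro s hs
    have h1 : m ≤ s := by rw [hm]; exact min'_le _ _ hs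
    rw [mem_Icc]
    refine ⟨h1, ?_⟩
    rw [mem_image] at hs hmm
    obtain ⟨k, hk, rfl⟩ := hs
    obtain ⟨k', hk', e'⟩ := hmm
    rw [← e'] at h1 ⊢
    have h3 := hg k hk
    have h4 := hg k' hk'
    have h5 : d * (((g k : ℕ) : ℤ) ^ 2 - ((g k' : ℕ) : ℤ) ^ 2) = β * ((k : ℤ) - k') := by
      linear_combination -h3 + h4
    have h6 : (d * (((g k : ℕ) : ℤ) ^ 2 - ((g k' : ℕ) : ℤ) ^ 2)).natAbs ≤ β.natAbs * H := by
      rw [h5, Int.natAbs_mul]
      apply Nat.mul_le_mul_left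
      have a1 := hTm k hk
      have a2 := hTm k' hk'
      omega
    rw [Int.natAbs_mul] at h6
    have h7 : (((g k : ℕ) : ℤ) ^ 2 - ((g k' : ℕ) : ℤ) ^ 2).natAbs ≤ β.natAbs * H :=
      le_trans (Nat.le_mul_of_pos_left _ (Int.natAbs_pos.2 hd)) h6
    obtain ⟨e, he⟩ : ∃ e, g k = g k' + e := ⟨g k - g k', by omega⟩
    have h8 : e ^ 2 ≤ (((g k : ℕ) : ℤ) ^ 2 - ((g k' : ℕ) : ℤ) ^ 2).natAbs := by
      rw [he]
      push_cast
      have e2 : ((g k' : ℤ) + e) ^ 2 - (g k' : ℤ) ^ 2 = ((e * e + 2 * g k' * e : ℕ) : ℤ) := by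
        push_cast; ring
      rw [e2, Int.natAbs_natCast, sq]
      omega
    have h9 : e ≤ Nat.sqrt (β.natAbs * H) := Nat.le_sqrt'.2 (h8.trans h7)
    omega
  refine (card_le_card hsub).trans ?_
  rw [Nat.card_Icc]
  omega

end Pool.Agent.W2helper63.LG
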