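import Pool.Agent.W2helper63.LG.Hb

set_option autoImplicit false

/-! A lower bound for the Euler product, for most members of a linear sequence of discriminants: the theorem. -/

namespace Pool.Agent.W2helper63.LG
open Finset Filter Topology
open Pool.Agent.W468.ConjF (SJ PJ PJ_tendsto SJ_add js_abs factor_pos)
open Pool.Agent.Y868.TB (Sol low_count_lin)
open Pool.Agent.R460.SC (tail_gen2 PJ_ge)

lemma ev_log (k : ℕ) (s : ℝ) (hs : 0 < s) (c : ℝ) :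
    ∀ᶠ x : ℝ in atTop, c ≤ Real.log x ∧ Real.log x ^ k ≤ x ^ s := by
  have h1 := (isLittleO_log_rpow_rpow_atTop (k : ℝ) hs).def (show (0 : ℝ) < 1 by norm_num)
  filter_upwards [h1, Real.tendsto_log_atTop.eventually_ge_atTop c, eventually_ge_atTop 1] with x h2 h3 h4
  refine ⟨h3, ?_⟩
  rw [one_mul, Real.norm_of_nonneg (Real.rpow_nonneg (Real.log_nonneg h4) _),
    Real.norm_of_nonneg (Real.rpow_nonneg (by linarith) _), Real.rpow_natCast] at h2
  exact h2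

/-- the product converges, and its value is not small -/
def GoodH (c : ℝ) (Y : ℕ) (D : ℤ) : Prop :=
  ¬ IsSquare D ∧ ∃ h : ℝ, c / Real.log Y ≤ h ∧ Tendsto (pr D) atTop (𝓝 h)

theorem hgood : ∃ c : ℝ, 0 < c ∧ ∃ X₀ : ℕ, ∀ X : ℕ, X₀ ≤ X → ∀ Y : ℕ, √(Real.log X) ≤ Y → (Y : ℝ) ≤ Real.log X →
    ∀ W : ℕ, 1 ≤ W → (W : ℝ) ≤ (X : ℝ) ^ (1 / 20 : ℝ) → (∀ p : ℕ, p.Prime → p ∣ W → p ≤ Y) →
    ∀ (α β : ℤ), β.natAbs = W → ∀ H : ℕ, (X : ℝ) ^ (2 / 5 : ℝ) ≤ H → H ≤ X →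
      (∀ k ∈ Icc 1 H, (α + β * (k : ℤ)).natAbs ≤ X) →
    ∃ Ex : Finset ℕ, (#Ex : ℝ) ≤ H / 4 ∧ ∀ k ∈ Icc 1 H, k ∉ Ex → GoodH c Y (α + β * (k : ℤ)) := by
  classical
  obtain ⟨c₀, hc₀, hlow⟩ := pr_low
  obtain ⟨H₀, htail⟩ := tail_gen2 1 7 3 4 (by norm_num) (by norm_num)
  obtain ⟨X₁, hX₁⟩ := eventually_atTop.1 (tendsto_natCast_atTop_atTop.eventually
    (ev_log 13 (3 / 10) (by norm_num) (1100000 + H₀)))
  refine ⟨c₀ / 3, by positivity, X₁ + 3, fun X hX Y hY1 hY2 W hW1 hW2 hWp α β hβW H hH1 hH2 hf => ?_⟩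
  obtain ⟨hL, hLp⟩ := hX₁ X (by omega)
  obtain ⟨L, hLd⟩ : ∃ L, L = Real.log (X : ℝ) := ⟨_, rfl⟩
  rw [← hLd] at hL hLp hY1 hY2
  have hH00 : (0 : ℝ) ≤ H₀ := Nat.cast_nonneg _
  have hLb : 1100000 ≤ L := by linarith
  have hX1 : (1 : ℝ) ≤ X := by exact_mod_cast (by omega : 1 ≤ X)
  have hX0 : (0 : ℝ) < X := by linarith
  have hHr0 : (0 : ℝ) < H := lt_of_lt_of_le (Real.rpow_pos_of_pos hX0 _) hH1
  have hH0 : 0 < H := by exact_mod_cast hHr0
  have hHX : (H : ℝ) ≤ X := by exact_mod_cast hH2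
  -- the size of Y
  have hY1024 : (1024 : ℝ) ≤ Y := by
    refine le_trans ?_ hY1
    apply Real.le_sqrt_of_sq_le
    linarith
  have hYn : 1024 ≤ Y := by exact_mod_cast hY1024
  -- logarithm of H
  have hlH1 : Real.log H ≤ L := by rw [hLd]; exact Real.log_le_log hHr0 hHX
  have hlH2 : 2 / 5 * L ≤ Real.log H := by
    rw [hLd, ← Real.log_rpow hX0]
    exact Real.log_le_log (Real.rpow_pos_of_pos hX0 _) hH1
  -- large power
  obtain ⟨B, hB⟩ : ∃ B, B = (X : ℝ) ^ (3 / 10 : ℝ) := ⟨_, rfl⟩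
  rw [← hB] at hLp
  have hBH : B ≤ H := by
    refine le_trans ?_ hH1
    rw [hB]
    exact Real.rpow_le_rpow_of_exponent_le hX1 (by norm_num)
  have hL13 : L ≤ L ^ 13 := le_self_pow₀ (by linarith) (by norm_num)
  have hBL : L ≤ B := hL13.trans hLp
  have hH0H : H₀ ≤ H := by
    have : (H₀ : ℝ) ≤ H := by linarith
    exact_mod_cast this
  obtain ⟨z, hz⟩ : ∃ z : ℕ, z = ⌈L ^ 6⌉₊ := ⟨_, rfl⟩
  have hz1 : L ^ 6 ≤ z := by rw [hz]; exact Nat.le_ceil _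
  have hz2 : (z : ℝ) < L ^ 6 + 1 := by rw [hz]; exact Nat.ceil_lt_add_one (by positivity)
  have hL6 : 1 ≤ L ^ 6 := one_le_pow₀ (by linarith)
  have hlH0 : 0 ≤ Real.log H := by linarith
  have hzlo : Real.log H ^ (3 * 1 + 3) ≤ z := le_trans (pow_le_pow_left₀ hlH0 hlH1 6) hz1
  have hzhi : (z : ℝ) ≤ Real.log H ^ 7 := by
    calc (z : ℝ) ≤ L ^ 6 + 1 := hz2.le
      _ ≤ 2 * L ^ 6 := by linarith
      _ ≤ (2 / 5) ^ 7 * L * L ^ 6 := by
          apply mul_le_mul_of_nonneg_right _ (by positivity)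
          norm_num
          linarith
      _ = (2 / 5 * L) ^ 7 := by ring
      _ ≤ _ := pow_le_pow_left₀ (by linarith) hlH2 7
  have hβ0 : β ≠ 0 := by
    intro h
    rw [h] at hβW
    simp at hβW
    omega
  have hβdvd : ∀ p : ℕ, p.Prime → Y < p → ¬ (p : ℤ) ∣ β := by
    intro p hp hpY h
    have h1 : p ∣ β.natAbs := Int.natCast_dvd.1 h
    rw [hβW] at h1
    have := hWp p hp h1
    omega
  have hWX : (W : ℝ) ≤ H := by
    refine hW2.trans (le_trans ?_ hH1)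
    exact Real.rpow_le_rpow_of_exponent_le hX1 (by norm_num)
  have hWH : W ≤ H := by exact_mod_cast hWX
  have hHpow : H ≤ H ^ 3 := Nat.le_self_pow (by norm_num) H
  have hXH3 : X ≤ H ^ 3 := by
    have h1 : (X : ℝ) ≤ (H : ℝ) ^ 3 := by
      calc (X : ℝ) = (X : ℝ) ^ (1 : ℝ) := (Real.rpow_one _).symm
        _ ≤ (X : ℝ) ^ ((2 / 5 : ℝ) * (3 : ℕ)) := Real.rpow_le_rpow_of_exponent_le hX1 (by norm_num)
        _ = ((X : ℝ) ^ (2 / 5 : ℝ)) ^ 3 := by rw [Real.rpow_mul hX0.le, Real.rpow_natCast]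
        _ ≤ (H : ℝ) ^ 3 := pow_le_pow_left₀ (Real.rpow_nonneg hX0.le _) hH1 3
    exact_mod_cast h1
  -- the size of the number of squares
  have hsol : ∀ d : ℤ, (#(Sol (fun k : ℕ => α + β * (k : ℤ)) H d) : ℝ) ≤ (Nat.sqrt (W * H) + 1 : ℕ) := by
    intro d
    have := sol_short α β hβ0 H d
    rw [hβW] at this
    exact_mod_cast this
  have hsolb : ((Nat.sqrt (W * H) + 1 : ℕ) : ℝ) ^ 4 ≤ (H : ℝ) ^ (4 - 1) := by
    have h1 : Nat.sqrt (W * H) ^ 2 ≤ W * H := Nat.sqrt_le' _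
    have h2 : 1 ≤ Nat.sqrt (W * H) := by
      rw [Nat.one_le_iff_ne_zero]
      intro h
      rw [Nat.sqrt_eq_zero] at h
      have : 0 < W * H := Nat.mul_pos hW1 hH0
      omega
    have h3 : (Nat.sqrt (W * H) + 1) ^ 4 ≤ 16 * W ^ 2 * H ^ 2 := by
      calc (Nat.sqrt (W * H) + 1) ^ 4 ≤ (2 * Nat.sqrt (W * H)) ^ 4 := Nat.pow_le_pow_left (by omega) 4
        _ = 16 * (Nat.sqrt (W * H) ^ 2) ^ 2 := by ring
        _ ≤ 16 * (W * H) ^ 2 := by gcongr
        _ = _ := by ring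
    have h4 : (16 * (W : ℝ) ^ 2) ≤ H := by
      have h5 : (W : ℝ) ^ 2 ≤ (X : ℝ) ^ (1 / 10 : ℝ) := by
        calc (W : ℝ) ^ 2 ≤ ((X : ℝ) ^ (1 / 20 : ℝ)) ^ 2 := pow_le_pow_left₀ (by positivity) hW2 2
          _ = (X : ℝ) ^ (1 / 10 : ℝ) := by
              rw [← Real.rpow_natCast, ← Real.rpow_mul hX0.le]
              norm_num
      have h6 : (16 : ℝ) ≤ B := by linarith
      have h7 : B * (X : ℝ) ^ (1 / 10 : ℝ) = (X : ℝ) ^ (2 / 5 : ℝ) := by
        rw [hB, ← Real.rpow_add hX0]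
        norm_num
      have h8 : 0 ≤ (X : ℝ) ^ (1 / 10 : ℝ) := Real.rpow_nonneg hX0.le _
      calc 16 * (W : ℝ) ^ 2 ≤ B * (X : ℝ) ^ (1 / 10 : ℝ) := mul_le_mul h6 h5 (by positivity) (by linarith)
        _ = _ := h7
        _ ≤ H := hH1
    have h5 : (((Nat.sqrt (W * H) + 1 : ℕ) : ℝ)) ^ 4 ≤ 16 * (W : ℝ) ^ 2 * (H : ℝ) ^ 2 := by exact_mod_cast h3
    refine h5.trans ?_
    calc 16 * (W : ℝ) ^ 2 * (H : ℝ) ^ 2 ≤ H * (H : ℝ) ^ 2 := mul_le_mul_of_nonneg_right h4 (by positivity)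
      _ = (H : ℝ) ^ (4 - 1) := by ring
  obtain ⟨Ex, hE1, hE2⟩ := htail H hH0H z hzlo hzhi (fun k : ℕ => α + β * (k : ℤ)) (W : ℤ)
    (by exact_mod_cast (by omega : W ≠ 0)) (by rw [Int.natAbs_natCast]; exact hWH.trans hHpow)
    (fun b hb => (hf b hb).trans hXH3)
    (by
      intro P Z hP τ hτ
      have hz0 : 1 ≤ z := by
        have : (1 : ℝ) ≤ z := hL6.trans hz1
        exact_mod_cast this
      have := low_count_lin α β P z Z (H + 1) hz0 (fun p hp => by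
        obtain ⟨h1, h2, h3, h4, h5⟩ := hP p hp
        refine ⟨h1, h2, h3, h4, fun h => h5 ?_⟩
        rw [← Int.natAbs_dvd_natAbs] at h
        rw [Int.natAbs_natCast, hβW] at h
        exact_mod_cast h) τ hτ
      exact this)
    _ (Nat.cast_nonneg _) hsol hsolb
  have hYz : Y ≤ z := by
    have : (Y : ℝ) ≤ z := by
      have h1 : L ≤ L ^ 6 := le_self_pow₀ (by linarith) (by norm_num)
      linarith
    exact_mod_cast this
  obtain ⟨Ey, hEy⟩ : ∃ Ey, Ey = (range (H + 1)).filter (fun c : ℕ => (1 / 4 : ℝ) <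
    |∑ p ∈ (Ioc Y z).filter Nat.Prime, (jacobiSym (α + β * (c : ℤ)) p : ℝ) / p|) := ⟨_, rfl⟩
  have hEyc : (#Ey : ℝ) ≤ H / 8 := by
    have h1 := low_count_lin α β ((Ioc Y z).filter Nat.Prime) Y z (H + 1) (by omega) (fun p hp => by
      rw [mem_filter, mem_Ioc] at hp
      exact ⟨hp.2, by omega, hp.1.1, hp.1.2, hβdvd p hp.2 hp.1.1⟩) (1 / 4) (by norm_num)
    rw [← hEy] at h1
    refine h1.trans ?_
    have h2 : (((H + 1 : ℕ) : ℝ) / Y) ≤ H / 512 := by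
      rw [div_le_div_iff₀ (by linarith) (by norm_num)]
      push_cast
      have hH1' : (1 : ℝ) ≤ H := by exact_mod_cast hH0
      nlinarith
    have h3 : (z : ℝ) ^ 2 ≤ H / 1024 := by
      have h4 : (z : ℝ) ^ 2 ≤ (2 * L ^ 6) ^ 2 := pow_le_pow_left₀ (by positivity) (by linarith) 2
      have h5 : (2 * L ^ 6) ^ 2 * 1024 ≤ L ^ 13 := by
        have e1 : (2 * L ^ 6) ^ 2 * 1024 = 4096 * L ^ 12 := by ring
        have e2 : L ^ 13 = L * L ^ 12 := by ring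
        rw [e1, e2]
        apply mul_le_mul_of_nonneg_right _ (by positivity)
        linarith
      linarith
    rw [div_le_iff₀ (by norm_num)]
    have e : (H : ℝ) / 8 * (1 / 4) ^ 2 = H / 128 := by ring
    rw [e]
    linarith
  refine ⟨Ex ∪ Ey, ?_, fun k hk hkE => ?_⟩
  · have h1 : (#(Ex ∪ Ey) : ℝ) ≤ #Ex + #Ey := by exact_mod_cast card_union_le _ _
    have h2 : (H : ℝ) / Real.log H ^ 1 ≤ H / 8 := by
      rw [pow_one]
      apply div_le_div_of_nonneg_left hHr0.le (by norm_num)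
      linarith
    linarith
  · rw [mem_union, not_or] at hkE
    obtain ⟨hD, hSJ⟩ := hE2 k hk hkE.1
    refine ⟨hD, ?_⟩
    have hlow1 : |SJ (α + β * (k : ℤ)) Y z| ≤ 1 / 4 := by
      by_contra hcon
      push Not at hcon
      apply hkE.2
      rw [hEy, mem_filter, mem_range]
      rw [mem_Icc] at hk
      exact ⟨by omega, hcon⟩
    obtain ⟨ℓ, hℓ0, hℓ⟩ := PJ_tendsto _ hD Y (by omega)
    have hℓ1 : 1 / 3 ≤ ℓ := by
      apply ge_of_tendsto hℓ
      filter_upwards [hSJ, eventually_ge_atTop z] with N h1 hN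
      refine le_trans ?_ (PJ_ge _ Y N (by omega) (hYz.trans hN))
      have h2 : |SJ (α + β * (k : ℤ)) Y N| ≤ 1 / 2 := by
        rw [SJ_add _ Y z N hYz hN]
        refine (abs_add_le _ _).trans ?_
        have h3 : 1 / Real.log H ^ 1 ≤ 1 / 4 := by
          rw [pow_one]
          apply one_div_le_one_div_of_le (by norm_num)
          linarith
        linarith
      have h4 : 5 / (Y : ℝ) ≤ 1 / 2 := by
        rw [div_le_div_iff₀ (by linarith) (by norm_num)]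
        linarith
      have h5 : Real.exp (-1) ≤ Real.exp (-(|SJ (α + β * (k : ℤ)) Y N| + 5 / Y)) := by
        apply Real.exp_le_exp.2
        linarith
      refine le_trans ?_ h5
      rw [Real.exp_neg, one_div]
      apply inv_anti₀ (Real.exp_pos _)
      have := Real.exp_one_lt_d9
      linarith
    have hlY : 0 < Real.log Y := Real.log_pos (by linarith)
    refine ⟨pr (α + β * (k : ℤ)) Y * ℓ, ?_, ?_⟩
    · have h1 := hlow (α + β * (k : ℤ)) Y (by omega)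
      have h2 : 0 ≤ c₀ / Real.log Y := by positivity
      calc c₀ / 3 / Real.log Y = c₀ / Real.log Y * (1 / 3) := by ring
        _ ≤ _ := mul_le_mul h1 hℓ1 (by norm_num) (h2.trans h1)
    · refine (hℓ.const_mul (pr (α + β * (k : ℤ)) Y)).congr' ?_
      filter_upwards [eventually_ge_atTop Y] with N hN
      rw [pr_split _ (by omega) hN]

end Pool.Agent.W2helper63.LG
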