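import Pool.Agent.W2helper63.LG.Fin

set_option autoImplicit false

/-! Long windows without primes: the three parts. -/

namespace Pool.Agent.W2helper63.LG
open Finset Filter Topology

/-- the modulus is small -/
lemma W_small (ε : ℝ) (hε : 0 < ε) (δ : ℝ) (hδ : 0 < δ) (hδ1 : δ ≤ ε / 64) : ∃ X₀ : ℕ, ∀ X : ℕ, X₀ ≤ X →
    ∀ y : ℕ, y = ⌊δ * Real.log X⌋₊ → 64 * ((Wm (4 * y) : ℝ)) ^ 2 ≤ (X : ℝ) ^ ε := by
  obtain ⟨X₁, hX₁⟩ := eventually_atTop.1 ((tendsto_natCast_atTop_atTop (R := ℝ)).eventually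
    (Real.tendsto_log_atTop.eventually_ge_atTop (10 / ε)))
  refine ⟨X₁ + 3, fun X hX y hy => ?_⟩
  have h1 := hX₁ X (by omega)
  have hX0 : (0 : ℝ) < X := by exact_mod_cast (by omega : 0 < X)
  obtain ⟨l, hl⟩ : ∃ l, l = Real.log (X : ℝ) := ⟨_, rfl⟩
  rw [← hl] at h1 hy
  have h10 : 0 < 10 / ε := by positivity
  have hl0 : 0 < l := by linarith
  rw [div_le_iff₀ hε] at h1
  have hy1 : (y : ℝ) ≤ δ * l := by rw [hy]; exact Nat.floor_le (by positivity)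
  have h2 : (Wm (4 * y) : ℝ) ≤ (4 : ℝ) ^ (4 * y) := by exact_mod_cast Wm_le (4 * y)
  have h3 : (Wm (4 * y) : ℝ) ≤ Real.exp (8 * δ * l) := by
    refine h2.trans ?_
    rw [← Real.rpow_natCast, Real.rpow_def_of_pos (by norm_num)]
    apply Real.exp_le_exp.2
    have h4 : Real.log 4 ≤ 2 := by
      have : Real.log 4 = 2 * Real.log 2 := by
        rw [show (4 : ℝ) = 2 ^ 2 by norm_num, Real.log_pow]; norm_num
      have := Real.log_two_lt_d9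
      linarith
    have h5 : (0 : ℝ) ≤ ((4 * y : ℕ) : ℝ) := Nat.cast_nonneg _
    calc Real.log 4 * ((4 * y : ℕ) : ℝ) ≤ 2 * ((4 * y : ℕ) : ℝ) := mul_le_mul_of_nonneg_right h4 h5
      _ ≤ _ := by push_cast; linarith
  have h4 : (Wm (4 * y) : ℝ) ^ 2 ≤ Real.exp (16 * δ * l) := by
    calc (Wm (4 * y) : ℝ) ^ 2 ≤ Real.exp (8 * δ * l) ^ 2 := pow_le_pow_left₀ (Nat.cast_nonneg _) h3 2
      _ = Real.exp (16 * δ * l) := by rw [← Real.exp_nat_mul]; push_cast; ring_nf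
  have h5 : (64 : ℝ) ≤ Real.exp 5 := by
    have e1 : Real.exp 5 = Real.exp 1 ^ 5 := by rw [← Real.exp_nat_mul]; norm_num
    rw [e1]
    have h6 : (2.7 : ℝ) ≤ Real.exp 1 := by have := Real.exp_one_gt_d9; linarith
    calc (64 : ℝ) ≤ 2.7 ^ 5 := by norm_num
      _ ≤ _ := pow_le_pow_left₀ (by norm_num) h6 5
  rw [Real.rpow_def_of_pos hX0, ← hl]
  calc 64 * (Wm (4 * y) : ℝ) ^ 2 ≤ Real.exp 5 * Real.exp (16 * δ * l) := mul_le_mul h5 h4 (by positivity) (Real.exp_pos _).le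
    _ = Real.exp (5 + 16 * δ * l) := by rw [Real.exp_add]
    _ ≤ _ := by
        apply Real.exp_le_exp.2
        have : 16 * δ * l ≤ ε / 4 * l := by
          apply mul_le_mul_of_nonneg_right _ hl0.le
          linarith
        nlinarith

open Classical in
/-- members of an interval, for one centre -/
theorem one_centre (ε : ℝ) (hε : 0 < ε) : ∃ c₀ : ℝ, 0 < c₀ ∧ ∀ c : ℝ, 0 < c → c ≤ c₀ → ∃ δ : ℝ, 0 < δ ∧ δ ≤ 1 / 200 ∧ δ = min (1 / 200) (ε / 64) ∧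
    ∃ X₀ : ℕ, ∀ X : ℕ, X₀ ≤ X → ∀ y : ℕ, y = ⌊δ * Real.log X⌋₊ → ∀ k : ℕ, 1 ≤ k → k ≤ 3 →
    ∀ u A b : ℤ, ∀ M : ℕ, |u| ≤ 2 * X → √X / 2 ≤ M → -(X : ℤ) ≤ b → b + M ≤ X →
    (∀ a : ℤ, (Wm (4 * y) : ℤ) ∣ a - A → ∀ i : ℤ, |i| ≤ (⌊c * len k X⌋₊ + 2 : ℕ) →
      ∃ p : ℕ, p.Prime ∧ 3 ≤ p ∧ p ≤ 4 * y ∧ (p : ℤ) ∣ (u + i) ^ 2 + a) →
    ∀ x : ℤ → ℝ, (∀ a ∈ Ioc b (b + M), |x a - u| ≤ 1) →
    (M : ℝ) / (4 * Wm (4 * y)) ≤ #((Ioc b (b + M)).filter (fun a : ℤ => Gap ε c (c * len k X) X (x a) a)) := by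
  obtain ⟨ch, hch, hmem⟩ := members
  refine ⟨min (ch / 3) (1 / 4), by positivity, fun c hc hcc => ⟨min (1 / 200) (ε / 64), by positivity, min_le_left _ _, rfl, ?_⟩⟩
  obtain ⟨δ, hδd⟩ : ∃ δ, δ = min (1 / 200) (ε / 64) := ⟨_, rfl⟩
  rw [← hδd]
  have hδ : 0 < δ := by rw [hδd]; positivity
  have hδ1 : δ ≤ 1 / 200 := by rw [hδd]; exact min_le_left _ _
  have hδ2 : δ ≤ ε / 64 := by rw [hδd]; exact min_le_right _ _
  have hc1 : c ≤ ch / 3 := hcc.trans (min_le_left _ _)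
  have hc2 : c ≤ 1 / 4 := hcc.trans (min_le_right _ _)
  obtain ⟨X₁, h1⟩ := hmem δ hδ hδ1
  obtain ⟨X₂, h2⟩ := sizes δ hδ hδ1 c hc hc2 1
  obtain ⟨X₃, h3⟩ := eventually_atTop.1 (tendsto_natCast_atTop_atTop.eventually
    (ev_log 2 1 (by norm_num) 10))
  refine ⟨X₁ + X₂ + X₃ + 10, fun X hX y hy k hk1 hk3 u A b M hu hM hb1 hb2 hcov x hx => ?_⟩
  obtain ⟨s1, s2, s3, s4, s5, s6, s7⟩ := h2 X (by omega) k hk1 hk3 y hy
  obtain ⟨t1, t2⟩ := h3 X (by omega)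
  rw [Real.rpow_one] at t2
  obtain ⟨L, hL⟩ : ∃ L : ℕ, L = ⌊c * len k X⌋₊ + 2 := ⟨_, rfl⟩
  rw [← hL] at hcov
  have hLr : (L : ℝ) ≤ c * len k X + 2 := by
    rw [hL]
    push_cast
    have := Nat.floor_le (show 0 ≤ c * len k X by linarith)
    linarith
  have hLX : L ≤ X := by
    have : (L : ℝ) ≤ X := by linarith
    exact_mod_cast this
  refine (h1 X (by omega) y hy L (by linarith) u A b M hM hb1 hb2 hcov).trans ?_
  have hl0 : 0 < Real.log X := by linarith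
  have hY : ((4 * y : ℕ) : ℝ) ≤ ε * Real.log X := by
    have h4 : (y : ℝ) ≤ δ * Real.log X := by rw [hy]; exact Nat.floor_le (by positivity)
    push_cast
    nlinarith
  apply Nat.cast_le.2
  apply card_le_card
  intro a ha
  rw [mem_filter] at ha ⊢
  obtain ⟨ha1, ha2, ha3⟩ := ha
  have hx1 := hx a ha1
  refine ⟨ha1, ?_⟩
  rw [mem_Ioc] at ha1
  refine gap_of (by omega) s3 s4 s2 hY hch hc1 ha2 ha3 ?_ hu hLX (by rw [abs_le]; constructor <;> linarith)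
  intro n hn
  rw [mem_window] at hn
  have h5 : |(n : ℝ) - u| ≤ c * len k X + 1 := by
    have e1 : (n : ℝ) - u = ((n : ℝ) - x a) + (x a - u) := by ring
    rw [e1]
    exact (abs_add_le _ _).trans (add_le_add hn hx1)
  have h6 : ((|n - u| : ℤ) : ℝ) < ((L : ℤ) : ℝ) := by
    push_cast
    rw [hL]
    push_cast
    have := Nat.lt_floor_add_one (c * len k X)
    linarith
  exact le_of_lt (by exact_mod_cast h6)

end Pool.Agent.W2helper63.LG
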