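import Pool.Agent.H398R2.RK.Surv2

set_option autoImplicit false

/-! The integers free of medium primes. -/

namespace Pool.Agent.W2helper63.LG
open Finset Filter Topology
open Pool.Agent.H398R2.RK (smooth_count primes_le)

/-- the lower end of the medium primes, in logarithmic scale -/
noncomputable def V0 (y : ℝ) : ℝ := Real.log y * Real.log (Real.log (Real.log y)) / (10 * Real.log (Real.log y))

open Classical in
/-- the integers `m ≤ L` free of medium primes -/
noncomputable def Am (y : ℝ) (L : ℕ) : Finset ℕ :=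
  (Icc 1 L).filter (fun m => ∀ p : ℕ, p.Prime → V0 y < Real.log p → (p : ℝ) ≤ y → ¬ p ∣ m)

lemma ev_t (c : ℝ) : ∃ y₀ : ℝ, ∀ y : ℝ, y₀ ≤ y → c ≤ y ∧ c ≤ Real.log y ∧ c ≤ Real.log (Real.log y) ∧
    c ≤ Real.log (Real.log (Real.log y)) := by
  have h1 := Real.tendsto_log_atTop
  have h2 := h1.comp h1
  have h3 := h1.comp h2
  have h4 := (((tendsto_id (α := ℝ)).eventually_ge_atTop c).and (h1.eventually_ge_atTop c)).and
    ((h2.eventually_ge_atTop c).and (h3.eventually_ge_atTop c))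
  obtain ⟨y₀, h5⟩ := eventually_atTop.1 h4
  refine ⟨y₀, fun y hy => ?_⟩
  obtain ⟨⟨a1, a2⟩, a3, a4⟩ := h5 y hy
  exact ⟨a1, a2, a3, a4⟩

theorem med_count : ∃ y₀ : ℝ, ∀ y : ℝ, y₀ ≤ y → ∀ L : ℕ, y ≤ L → (L : ℝ) ≤ y * Real.log y ^ 4 →
    (#(Am y L) : ℝ) ≤ 60 * L * Real.log (Real.log y) / Real.log y := by
  classical
  obtain ⟨y₁, hsm⟩ := smooth_count
  obtain ⟨y₂, hev⟩ := ev_t 2
  refine ⟨max y₁ y₂, fun y hy L hyL hLy => ?_⟩
  obtain ⟨hy2, hly2, hlly2, -⟩ := hev y ((le_max_right _ _).trans hy)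
  have hsm' := hsm y ((le_max_left _ _).trans hy) L hyL
  obtain ⟨l, hl⟩ : ∃ l, l = Real.log y := ⟨_, rfl⟩
  obtain ⟨t, ht⟩ : ∃ t, t = Real.log l := ⟨_, rfl⟩
  have hV : V0 y = Real.log y * Real.log (Real.log (Real.log y)) / (10 * Real.log (Real.log y)) := rfl
  rw [← hV] at hsm'
  rw [← hl] at hly2 hlly2 hsm' hLy ⊢
  rw [← ht] at hlly2 ⊢
  have hy0 : 0 < y := by linarith
  have hl0 : 0 < l := by linarith
  have hL0 : (0 : ℝ) < L := by linarith
  obtain ⟨K, hK⟩ : ∃ K : ℕ, K = ⌊l ^ 4⌋₊ := ⟨_, rfl⟩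
  have hK1 : (K : ℝ) ≤ l ^ 4 := by rw [hK]; exact Nat.floor_le (by positivity)
  have hK0 : 1 ≤ K := by
    rw [hK]
    apply Nat.le_floor
    push_cast
    exact one_le_pow₀ (by linarith)
  -- the cover
  have hsub : Am y L ⊆ (Icc 1 L).filter (fun m => ∀ p : ℕ, p.Prime → p ∣ m → Real.log p ≤ V0 y) ∪
      (Icc 1 K).biUnion (fun m' => ((Icc 1 (L / m')).filter (fun p : ℕ => p.Prime ∧ y < (p : ℝ))).image (fun p => p * m')) := by
    intro m hm
    rw [Am, mem_filter] at hm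
    rw [mem_union]
    by_cases hall : ∀ p : ℕ, p.Prime → p ∣ m → Real.log p ≤ V0 y
    · exact Or.inl (mem_filter.2 ⟨hm.1, hall⟩)
    · right
      push Not at hall
      obtain ⟨p, hp, hpm, hlp⟩ := hall
      have hpy : y < p := by
        by_contra hcon
        exact hm.2 p hp hlp (not_lt.1 hcon) hpm
      obtain ⟨m', rfl⟩ := hpm
      rw [mem_Icc] at hm
      obtain ⟨⟨hm1, hm2⟩, -⟩ := hm
      have hm'0 : 0 < m' := by
        rcases Nat.eq_zero_or_pos m' with h | h
        · rw [h] at hm1; omega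
        · exact h
      rw [mem_biUnion]
      refine ⟨m', ?_, ?_⟩
      · rw [mem_Icc]
        refine ⟨hm'0, ?_⟩
        rw [hK]
        apply Nat.le_floor
        have h1 : (p : ℝ) * m' ≤ L := by exact_mod_cast hm2
        have h2 : (0 : ℝ) < m' := by exact_mod_cast hm'0
        have h3 : y * m' ≤ y * l ^ 4 := by
          calc y * m' ≤ p * m' := by gcongr
            _ ≤ L := h1
            _ ≤ _ := hLy
        exact le_of_mul_le_mul_left h3 hy0
      · rw [mem_image]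
        refine ⟨p, ?_, rfl⟩
        rw [mem_filter, mem_Icc]
        exact ⟨⟨hp.pos, (Nat.le_div_iff_mul_le hm'0).2 hm2⟩, hp, hpy⟩
  -- the count of the primes
  have hcnt : ∀ m' ∈ Icc 1 K, (#(((Icc 1 (L / m')).filter (fun p : ℕ => p.Prime ∧ y < (p : ℝ))).image (fun p => p * m')) : ℝ) ≤
      10 * L / l * (1 / (m' : ℝ)) := by
    intro m' hm'
    rw [mem_Icc] at hm'
    have hm0 : (0 : ℝ) < m' := by exact_mod_cast (by omega : 0 < m')
    have h1 : (#(((Icc 1 (L / m')).filter (fun p : ℕ => p.Prime ∧ y < (p : ℝ))).image (fun p => p * m')) : ℝ) ≤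
        #((Icc 1 (L / m')).filter (fun p : ℕ => p.Prime ∧ y < (p : ℝ))) := by exact_mod_cast card_image_le
    refine h1.trans ?_
    rcases ((Icc 1 (L / m')).filter (fun p : ℕ => p.Prime ∧ y < (p : ℝ))).eq_empty_or_nonempty with h | h
    · rw [h, card_empty]
      push_cast
      positivity
    · obtain ⟨p, hp⟩ := h
      rw [mem_filter, mem_Icc] at hp
      have h2 : y < ((L / m' : ℕ) : ℝ) := lt_of_lt_of_le hp.2.2 (by exact_mod_cast hp.1.2)
      have h3 : 2 ≤ L / m' := by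
        have : (2 : ℝ) < ((L / m' : ℕ) : ℝ) := by linarith
        exact_mod_cast this.le
      have h4 := primes_le (L / m') h3
      have h5 : (#((Icc 1 (L / m')).filter (fun p : ℕ => p.Prime ∧ y < (p : ℝ))) : ℝ) ≤
          #((Icc 1 (L / m')).filter Nat.Prime) := by
        apply Nat.cast_le.2
        apply card_le_card
        intro q hq
        rw [mem_filter] at hq ⊢
        exact ⟨hq.1, hq.2.1⟩
      have h6 : ((L / m' : ℕ) : ℝ) ≤ L / m' := Nat.cast_div_le
      have h7 : l ≤ Real.log ((L / m' : ℕ) : ℝ) := by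
        rw [hl]
        exact Real.log_le_log hy0 h2.le
      calc (#((Icc 1 (L / m')).filter (fun p : ℕ => p.Prime ∧ y < (p : ℝ))) : ℝ) ≤ _ := h5
        _ ≤ 10 * ((L / m' : ℕ) : ℝ) / Real.log ((L / m' : ℕ) : ℝ) := h4
        _ ≤ 10 * (L / m') / l := by
            apply div_le_div₀ (by positivity) (by linarith) hl0 h7
        _ = _ := by ring
  have hharm : ∑ m' ∈ Icc 1 K, 1 / (m' : ℝ) ≤ 1 + 4 * t := by
    have h1 := harmonic_le_one_add_log K
    rw [harmonic_eq_sum_Icc] at h1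
    push_cast at h1
    have h2 : Real.log K ≤ 4 * t := by
      rw [ht]
      calc Real.log K ≤ Real.log (l ^ 4) := Real.log_le_log (by exact_mod_cast hK0) hK1
        _ = 4 * Real.log l := by rw [Real.log_pow]; push_cast; ring
    have h3 : ∑ m' ∈ Icc 1 K, 1 / (m' : ℝ) = ∑ i ∈ Icc 1 K, ((i : ℝ))⁻¹ := by
      apply sum_congr rfl
      intro i _
      rw [one_div]
    rw [h3]
    linarith
  have h1 : (#(Am y L) : ℝ) ≤ #((Icc 1 L).filter (fun m => ∀ p : ℕ, p.Prime → p ∣ m → Real.log p ≤ V0 y)) +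
      ∑ m' ∈ Icc 1 K, (#(((Icc 1 (L / m')).filter (fun p : ℕ => p.Prime ∧ y < (p : ℝ))).image (fun p => p * m')) : ℝ) := by
    have h2 := (card_le_card hsub).trans ((card_union_le _ _).trans (Nat.add_le_add_left card_biUnion_le _))
    exact_mod_cast h2
  have h2 : ∑ m' ∈ Icc 1 K, (#(((Icc 1 (L / m')).filter (fun p : ℕ => p.Prime ∧ y < (p : ℝ))).image (fun p => p * m')) : ℝ) ≤
      10 * L / l * (1 + 4 * t) := by
    refine (sum_le_sum hcnt).trans ?_
    rw [← mul_sum]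
    exact mul_le_mul_of_nonneg_left hharm (by positivity)
  have h3 : (L : ℝ) / l ^ 3 ≤ L / l := by
    apply div_le_div_of_nonneg_left hL0.le hl0
    exact le_self_pow₀ (by linarith) (by norm_num)
  have h4 : 60 * (L : ℝ) * t / l = L / l * (60 * t) := by ring
  have h5 : (L : ℝ) / l + 10 * L / l * (1 + 4 * t) = L / l * (11 + 40 * t) := by ring
  have h6 : (L : ℝ) / l * (11 + 40 * t) ≤ L / l * (60 * t) := by
    apply mul_le_mul_of_nonneg_left _ (by positivity)
    linarith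
  calc (#(Am y L) : ℝ) ≤ _ := h1
    _ ≤ L / l ^ 3 + 10 * L / l * (1 + 4 * t) := add_le_add hsm' h2
    _ ≤ L / l + 10 * L / l * (1 + 4 * t) := by linarith
    _ ≤ _ := by rw [h5, h4]; exact h6

end Pool.Agent.W2helper63.LG
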