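import Pool.Agent.W2helper63.LG.Main
import Pool.Agent.W2helper63.LG.Cz

set_option autoImplicit false

/-! Long windows without primes: the theorem. -/

namespace Pool.Agent.W2helper63.LG
open Finset Filter Topology

lemma sq_between {s : ℕ} {a : ℤ} (h1 : (s : ℤ) ^ 2 < -a) (h2 : -a < ((s : ℤ) + 1) ^ 2) : |√(-(a : ℝ)) - s| ≤ 1 := by
  have h1r : ((s : ℝ)) ^ 2 < -(a : ℝ) := by exact_mod_cast h1
  have h2r : -(a : ℝ) < ((s : ℝ) + 1) ^ 2 := by exact_mod_cast h2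
  have h3 : (s : ℝ) ≤ √(-(a : ℝ)) := Real.le_sqrt_of_sq_le h1r.le
  have h4 : √(-(a : ℝ)) ≤ s + 1 := by
    rw [Real.sqrt_le_left (by positivity)]
    exact h2r.le
  rw [abs_le]
  constructor <;> linarith

open Classical in
theorem main (ε : ℝ) (hε : 0 < ε) : ∃ c : ℝ, 0 < c ∧ ∃ X₀ : ℕ, ∀ X : ℕ, X₀ ≤ X →
    (∀ b : ℤ, ∀ M : ℕ, √X ≤ M → -(X : ℤ) ≤ b → b + M ≤ X →
      (M : ℝ) / (X : ℝ) ^ ε ≤ #((Ioc b (b + M)).filter (fun a : ℤ => Gap ε c (c * len 3 X) X 0 a))) ∧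
    (∀ u b : ℤ, ∀ M : ℕ, |u| ≤ X → √X ≤ M → -(X : ℤ) ≤ b → b + M ≤ X →
      (M : ℝ) / (X : ℝ) ^ ε ≤ #((Ioc b (b + M)).filter (fun a : ℤ => Gap ε c (c * len 2 X) X u a))) ∧
    ((X : ℝ) ^ (1 - ε) ≤ #((Icc (-(X : ℤ)) (-1)).filter (fun a : ℤ => Gap ε c (c * len 3 X) X (√(-(a : ℝ))) a))) ∧
    (∀ U : ℤ, |U| ≤ X → ∃ u : ℤ, U ≤ u ∧ (u : ℝ) ≤ U + (X : ℝ) ^ ε ∧ ∀ b : ℤ, ∀ M : ℕ, √X ≤ M → -(X : ℤ) ≤ b → b + M ≤ X →
      (M : ℝ) / (X : ℝ) ^ ε ≤ #((Ioc b (b + M)).filter (fun a : ℤ => Gap ε c (c * len 3 X) X u a))) := by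
  obtain ⟨c₀, hc₀, hone⟩ := one_centre ε hε
  obtain ⟨cA, hcA, yA, hA⟩ := sq_mod
  obtain ⟨cB, hcB, yB, hB⟩ := pair_mod
  obtain ⟨cZ, hcZ, yZ, hZ⟩ := zero_mod
  obtain ⟨δ, hδd⟩ : ∃ δ, δ = min (1 / 200) (ε / 64) := ⟨_, rfl⟩
  have hδ : 0 < δ := by rw [hδd]; positivity
  have hδ1 : δ ≤ 1 / 200 := by rw [hδd]; exact min_le_left _ _
  have hδ2 : δ ≤ ε / 64 := by rw [hδd]; exact min_le_right _ _
  obtain ⟨c, hc⟩ : ∃ c, c = min (min (min c₀ (1 / 4)) (min (cA * δ / 2 ^ 7) (cB * δ / 2 ^ 7))) (cZ * δ / 2 ^ 7) := ⟨_, rfl⟩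
  have hc0 : 0 < c := by rw [hc]; positivity
  have c1 : c ≤ c₀ := by rw [hc]; exact (min_le_left _ _).trans ((min_le_left _ _).trans (min_le_left _ _))
  have c2 : c ≤ 1 / 4 := by rw [hc]; exact (min_le_left _ _).trans ((min_le_left _ _).trans (min_le_right _ _))
  have c3 : c ≤ cA * δ / 2 ^ 7 := by rw [hc]; exact (min_le_left _ _).trans ((min_le_right _ _).trans (min_le_left _ _))
  have c4 : c ≤ cB * δ / 2 ^ 7 := by rw [hc]; exact (min_le_left _ _).trans ((min_le_right _ _).trans (min_le_right _ _))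
  have c5 : c ≤ cZ * δ / 2 ^ 7 := by rw [hc]; exact min_le_right _ _
  obtain ⟨δ', -, -, hδ'd, X₁, h1⟩ := hone c hc0 c1
  rw [← hδd] at hδ'd
  subst hδ'd
  obtain ⟨X₂, h2⟩ := sizes δ' hδ hδ1 c hc0 c2 (max (max yA yB) yZ : ℕ)
  obtain ⟨X₃, h3⟩ := W_small ε hε δ' hδ hδ2
  obtain ⟨X₄, h4⟩ := W_small (64 / 200) (by norm_num) δ' hδ (by linarith)
  obtain ⟨X₅, h5⟩ := eventually_atTop.1 ((tendsto_natCast_atTop_atTop (R := ℝ)).eventually
    ((tendsto_rpow_atTop (show (0 : ℝ) < 17 / 50 by norm_num)).eventually_ge_atTop 100))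
  refine ⟨c, hc0, X₁ + X₂ + X₃ + X₄ + X₅ + 10, fun X hX => ?_⟩
  obtain ⟨y, hy⟩ : ∃ y, y = ⌊δ' * Real.log X⌋₊ := ⟨_, rfl⟩
  have h1' := h1 X (by omega) y hy
  have h2' := fun k hk1 hk3 => h2 X (by omega) k hk1 hk3 y hy
  have h3' := h3 X (by omega) y hy
  have h4' := h4 X (by omega) y hy
  have h5' := h5 X (by omega)
  have hX0 : (0 : ℝ) < X := by exact_mod_cast (by omega : 0 < X)
  have hX1 : (1 : ℝ) ≤ X := by exact_mod_cast (by omega : 1 ≤ X)
  obtain ⟨W, hW⟩ : ∃ W, W = Wm (4 * y) := ⟨_, rfl⟩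
  rw [← hW] at h1' h3' h4'
  have hW0 : 0 < W := by rw [hW]; exact Wm_pos _
  have hWr : (1 : ℝ) ≤ W := by exact_mod_cast hW0
  have hWr0 : (0 : ℝ) < W := by linarith
  have hW4 : 4 * (W : ℝ) ≤ (X : ℝ) ^ ε := by nlinarith
  have hXε : 0 < (X : ℝ) ^ ε := Real.rpow_pos_of_pos hX0 _
  have hyAB : yA ≤ y ∧ yB ≤ y ∧ yZ ≤ y := by
    have h6 := (h2' 2 (by norm_num) (by norm_num)).1
    have h7 : max (max yA yB) yZ ≤ y := by exact_mod_cast h6
    omega
  have hWX : (W : ℝ) + 2 ≤ √X / 16 := by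
    have e1 : √(X : ℝ) = (X : ℝ) ^ (4 / 25 : ℝ) * (X : ℝ) ^ (17 / 50 : ℝ) := by
      rw [← Real.rpow_add hX0, Real.sqrt_eq_rpow]
      norm_num
    have e2 : (W : ℝ) ≤ (X : ℝ) ^ (4 / 25 : ℝ) := by
      have h6 : (W : ℝ) ^ 2 ≤ ((X : ℝ) ^ (4 / 25 : ℝ)) ^ 2 := by
        rw [← Real.rpow_natCast ((X : ℝ) ^ (4 / 25 : ℝ)), ← Real.rpow_mul hX0.le]
        have e3 : ((4 : ℝ) / 25 * (2 : ℕ)) = 64 / 200 := by norm_num
        rw [e3]
        nlinarith
      exact le_of_sq_le_sq h6 (Real.rpow_nonneg hX0.le _)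
    have e3 : (1 : ℝ) ≤ (X : ℝ) ^ (4 / 25 : ℝ) := Real.one_le_rpow hX1 (by norm_num)
    rw [e1]
    nlinarith
  have hLen : ∀ k, 1 ≤ k → k ≤ 3 → ∀ c' : ℝ, 0 < c' → c ≤ c' * δ' / 2 ^ 7 →
      ((⌊c * len k X⌋₊ + 2 : ℕ) : ℝ) ≤ c' * Ln k y := by
    intro k hk1 hk3 c' hc' hcc
    obtain ⟨s1, s2, s3, s4, s5, s6, s7⟩ := h2' k hk1 hk3
    have h6 := Nat.floor_le (show 0 ≤ c * len k X by linarith)
    have hlen0 : 0 < len k X := by
      by_contra hcon
      push Not at hcon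
      nlinarith
    push_cast
    calc (⌊c * len k X⌋₊ : ℝ) + 2 ≤ 2 * (c * len k X) := by linarith
      _ ≤ 2 * (c' * δ' / 2 ^ 7 * len k X) := by gcongr
      _ = c' * (δ' / 2 ^ 6 * len k X) := by ring
      _ ≤ c' * (δ' / 2 ^ (k + 3) * len k X) := by
          apply mul_le_mul_of_nonneg_left _ hc'.le
          apply mul_le_mul_of_nonneg_right _ hlen0.le
          apply div_le_div_of_nonneg_left hδ.le (by positivity)
          exact pow_le_pow_right₀ (by norm_num) (by omega)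
      _ ≤ _ := mul_le_mul_of_nonneg_left s5 hc'.le
  refine ⟨fun b M hM hb1 hb2 => ?_, fun u b M hu hM hb1 hb2 => ?_, ?_, fun U hU => ?_⟩
  · -- centre zero
    obtain ⟨A, hAA⟩ := hZ y hyAB.2.2 (⌊c * len 3 X⌋₊ + 2) (hLen 3 (by norm_num) (by norm_num) cZ hcZ c5)
    rw [← hW] at hAA
    have h6 := h1' 3 (by norm_num) (by norm_num) 0 A b M (by rw [abs_zero]; positivity)
      (by have := Real.sqrt_nonneg (X : ℝ); linarith) hb1 hb2 hAA
      (fun _ => 0) (fun a _ => by push_cast; rw [sub_self, abs_zero]; exact zero_le_one)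
    refine le_trans ?_ h6
    exact div_le_div_of_nonneg_left (Nat.cast_nonneg _) (by positivity) hW4
  · -- one class
    obtain ⟨A, hAA⟩ := hA y hyAB.1 (⌊c * len 2 X⌋₊ + 2) (hLen 2 (by norm_num) (by norm_num) cA hcA c3) u
    rw [← hW] at hAA
    have h6 := h1' 2 (by norm_num) (by norm_num) u A b M (by omega) (by have := Real.sqrt_nonneg (X : ℝ); linarith) hb1 hb2 hAA
      (fun _ => (u : ℝ)) (fun a _ => by rw [sub_self, abs_zero]; exact zero_le_one)
    refine le_trans ?_ h6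
    exact div_le_div_of_nonneg_left (Nat.cast_nonneg _) (by positivity) hW4
  · -- near the square root
    obtain ⟨S, K, hSK⟩ := hB y hyAB.2.1 (⌊c * len 3 X⌋₊ + 2) (by omega) (hLen 3 (by norm_num) (by norm_num) cB hcB c4)
    rw [← hW] at hSK
    obtain ⟨s₁, hs₁⟩ : ∃ s₁, s₁ = ⌈√(X : ℝ) / 2⌉₊ := ⟨_, rfl⟩
    have hsX0 : 0 < √(X : ℝ) := Real.sqrt_pos.2 hX0
    have hs1a : √(X : ℝ) / 2 ≤ s₁ := by rw [hs₁]; exact Nat.le_ceil _
    have hs1b : (s₁ : ℝ) < √(X : ℝ) / 2 + 1 := by rw [hs₁]; exact Nat.ceil_lt_add_one (by positivity)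
    obtain ⟨r, hr⟩ : ∃ r : ℕ, r = ((S - s₁) % (W : ℤ)).toNat := ⟨_, rfl⟩
    have hrz : (r : ℤ) = (S - s₁) % (W : ℤ) := by
      rw [hr]
      exact Int.toNat_of_nonneg (Int.emod_nonneg _ (by exact_mod_cast hW0.ne'))
    have hrW : r < W := by
      have := Int.emod_lt_of_pos (S - s₁) (show (0 : ℤ) < W by exact_mod_cast hW0)
      rw [← hrz] at this
      exact_mod_cast this
    obtain ⟨N, hN⟩ : ∃ N, N = ⌊√(X : ℝ) / (4 * W)⌋₊ := ⟨_, rfl⟩
    have hN1 : (N : ℝ) ≤ √(X : ℝ) / (4 * W) := by rw [hN]; exact Nat.floor_le (by positivity)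
    have hN2 : √(X : ℝ) / (4 * W) < N + 1 := by rw [hN]; exact Nat.lt_floor_add_one _
    have hWN : (W : ℝ) * N ≤ √(X : ℝ) / 4 := by
      calc (W : ℝ) * N ≤ W * (√(X : ℝ) / (4 * W)) := mul_le_mul_of_nonneg_left hN1 hWr0.le
        _ = _ := by field_simp
    obtain ⟨s, hs⟩ : ∃ s : ℕ → ℕ, ∀ j, s j = s₁ + r + W * j := ⟨fun j => s₁ + r + W * j, fun _ => rfl⟩
    have hslo : ∀ j, √(X : ℝ) / 2 ≤ s j := by
      intro j
      refine hs1a.trans ?_
      rw [hs]
      exact_mod_cast (by omega : s₁ ≤ s₁ + r + W * j)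
    have hshi : ∀ j ∈ range N, (s j : ℝ) + 1 ≤ √(X : ℝ) := by
      intro j hj
      rw [mem_range] at hj
      have h6 : (W : ℝ) * j ≤ W * N := mul_le_mul_of_nonneg_left (by exact_mod_cast hj.le) hWr0.le
      have h7 : (r : ℝ) ≤ W := by exact_mod_cast hrW.le
      rw [hs]
      push_cast
      linarith
    have hsq : ∀ j ∈ range N, ((s j : ℤ) + 1) ^ 2 ≤ X := by
      intro j hj
      have h6 := hshi j hj
      have h7 : ((s j : ℝ) + 1) ^ 2 ≤ X := by
        calc ((s j : ℝ) + 1) ^ 2 ≤ √(X : ℝ) ^ 2 := pow_le_pow_left₀ (by positivity) h6 2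
          _ = X := Real.sq_sqrt hX0.le
      exact_mod_cast h7
    obtain ⟨b, hb⟩ : ∃ b : ℕ → ℤ, ∀ j, b j = -((s j : ℤ) ^ 2) - (3 * (s j : ℤ)) / 2 := ⟨_, fun _ => rfl⟩
    have hs2 : ∀ j, 2 ≤ s j := by
      intro j
      have h6 : (2 : ℝ) ≤ s j := by
        have := hslo j
        linarith
      exact_mod_cast h6
    have hrange : ∀ j, ∀ a ∈ Ioc (b j) (b j + s j), (s j : ℤ) ^ 2 < -a ∧ -a < ((s j : ℤ) + 1) ^ 2 := by
      intro j a ha
      rw [mem_Ioc, hb] at ha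
      have h6 := hs2 j
      have e1 : ((s j : ℤ) + 1) ^ 2 = (s j : ℤ) ^ 2 + (2 * (s j : ℤ) + 1) := by ring
      rw [e1]
      obtain ⟨q, hq⟩ : ∃ q : ℤ, q = (s j : ℤ) ^ 2 := ⟨_, rfl⟩
      rw [← hq] at ha ⊢
      constructor <;> omega
    obtain ⟨F, hF⟩ : ∃ F : ℕ → Finset ℤ, ∀ j, F j = (Ioc (b j) (b j + s j)).filter
      (fun a : ℤ => Gap ε c (c * len 3 X) X (√(-(a : ℝ))) a) := ⟨_, fun _ => rfl⟩
    have hFc : ∀ j ∈ range N, √(X : ℝ) / (8 * W) ≤ #(F j) := by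
      intro j hj
      rw [hF]
      have h6 := h1' 3 (by norm_num) (by norm_num) (s j) (K - (s j : ℤ) ^ 2) (b j) (s j)
        (by
          have := hsq j hj
          rw [abs_of_nonneg (by positivity)]
          nlinarith [hs2 j]) (hslo j)
        (by
          have := hsq j hj
          have h7 := hs2 j
          rw [hb]
          have e1 : ((s j : ℤ) + 1) ^ 2 = (s j : ℤ) ^ 2 + (2 * (s j : ℤ) + 1) := by ring
          rw [e1] at this
          obtain ⟨q, hq⟩ : ∃ q : ℤ, q = (s j : ℤ) ^ 2 := ⟨_, rfl⟩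
          rw [← hq] at this ⊢
          omega)
        (by
          have h7 := hs2 j
          rw [hb]
          have e1 : (s j : ℤ) ≤ (s j : ℤ) ^ 2 := by nlinarith
          obtain ⟨q, hq⟩ : ∃ q : ℤ, q = (s j : ℤ) ^ 2 := ⟨_, rfl⟩
          rw [← hq] at e1 ⊢
          omega)
        (by
          intro a ha i hi
          have hss : (W : ℤ) ∣ (s j : ℤ) - S := by
            rw [hs]
            push_cast
            rw [hrz]
            have h7 := Int.dvd_self_sub_emod (x := S - s₁) (m := (W : ℤ))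
            have e1 : (s₁ : ℤ) + (S - s₁) % (W : ℤ) + W * j - S = -(S - s₁ - (S - s₁) % (W : ℤ)) + W * j := by ring
            rw [e1]
            exact dvd_add (h7.neg_right) (Dvd.intro _ rfl)
          have hkk : (W : ℤ) ∣ ((s j : ℤ) ^ 2 + a) - K := by
            have e1 : ((s j : ℤ) ^ 2 + a) - K = a - (K - (s j : ℤ) ^ 2) := by ring
            rw [e1]
            exact ha
          obtain ⟨p, hp, g3, g4, g5⟩ := hSK _ _ hss hkk i hi
          refine ⟨p, hp, g3, g4, ?_⟩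
          have e1 : ((s j : ℤ) + i) ^ 2 + a = i ^ 2 + 2 * (s j : ℤ) * i + ((s j : ℤ) ^ 2 + a) := by ring
          rw [e1]
          exact g5)
        (fun a => √(-(a : ℝ)))
        (fun a ha => by
          obtain ⟨g1, g2⟩ := hrange j a ha
          exact_mod_cast sq_between g1 g2)
      refine le_trans ?_ h6
      rw [div_le_div_iff₀ (by positivity) (by positivity)]
      have := hslo j
      nlinarith
    have hsum : ∑ j ∈ range N, #(F j) ≤ #((Icc (-(X : ℤ)) (-1)).filter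
        (fun a : ℤ => Gap ε c (c * len 3 X) X (√(-(a : ℝ))) a)) := by
      rw [← card_sigma]
      apply card_le_card_of_injOn (fun x => x.2)
      · rintro ⟨j, a⟩ hx
        rw [mem_coe, mem_sigma, hF, mem_filter] at hx
        obtain ⟨hj, ha, hg⟩ := hx
        rw [mem_coe, mem_filter, mem_Icc]
        simp only at ha hg hj ⊢
        obtain ⟨g1, g2⟩ := hrange j a ha
        have g3 := hsq j hj
        have g4 := hs2 j
        refine ⟨⟨by linarith, ?_⟩, hg⟩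
        have : (0 : ℤ) ≤ (s j : ℤ) ^ 2 := by positivity
        omega
      · rintro ⟨j, a⟩ hx ⟨j', a'⟩ hx' he
        rw [mem_coe, mem_sigma, hF, mem_filter] at hx hx'
        simp only at hx hx' he
        subst he
        obtain ⟨g1, g2⟩ := hrange j a hx.2.1
        obtain ⟨g1', g2'⟩ := hrange j' a hx'.2.1
        have e1 : (s j : ℤ) < (s j' : ℤ) + 1 := by
          by_contra hcon
          push Not at hcon
          have : ((s j' : ℤ) + 1) ^ 2 ≤ (s j : ℤ) ^ 2 := pow_le_pow_left₀ (by positivity) hcon 2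
          linarith
        have e2 : (s j' : ℤ) < (s j : ℤ) + 1 := by
          by_contra hcon
          push Not at hcon
          have : ((s j : ℤ) + 1) ^ 2 ≤ (s j' : ℤ) ^ 2 := pow_le_pow_left₀ (by positivity) hcon 2
          linarith
        have e3 : s j = s j' := by omega
        rw [hs, hs] at e3
        have e4 : W * j = W * j' := by omega
        have e5 := Nat.eq_of_mul_eq_mul_left hW0 e4
        subst e5
        rfl
    have hsumr : ∑ j ∈ range N, (#(F j) : ℝ) ≤ #((Icc (-(X : ℤ)) (-1)).filter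
        (fun a : ℤ => Gap ε c (c * len 3 X) X (√(-(a : ℝ))) a)) := by exact_mod_cast hsum
    refine le_trans ?_ hsumr
    have hlow : N * (√(X : ℝ) / (8 * W)) ≤ ∑ j ∈ range N, (#(F j) : ℝ) := by
      calc N * (√(X : ℝ) / (8 * W)) = ∑ _j ∈ range N, √(X : ℝ) / (8 * W) := by
            rw [sum_const, card_range, nsmul_eq_mul]
        _ ≤ _ := sum_le_sum hFc
    refine le_trans ?_ hlow
    have hN3 : √(X : ℝ) / (8 * W) ≤ N := by
      have h6 : 1 ≤ √(X : ℝ) / (8 * W) := by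
        -- √X ≥ 8 W
        rw [one_le_div (by positivity)]
        linarith
      have h7 : √(X : ℝ) / (4 * W) = 2 * (√(X : ℝ) / (8 * W)) := by field_simp; norm_num
      linarith
    have h6 : √(X : ℝ) / (8 * W) * (√(X : ℝ) / (8 * W)) = X / (64 * W ^ 2) := by
      have e1 : √(X : ℝ) * √(X : ℝ) = X := Real.mul_self_sqrt hX0.le
      rw [div_mul_div_comm, e1]
      congr 1
      ring
    calc (X : ℝ) ^ (1 - ε) = X / (X : ℝ) ^ ε := by rw [Real.rpow_sub hX0, Real.rpow_one]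
      _ ≤ X / (64 * W ^ 2) := div_le_div_of_nonneg_left hX0.le (by positivity) h3'
      _ = √(X : ℝ) / (8 * W) * (√(X : ℝ) / (8 * W)) := h6.symm
      _ ≤ _ := mul_le_mul_of_nonneg_right hN3 (by positivity)
  · -- general location
    obtain ⟨S, K, hSK⟩ := hB y hyAB.2.1 (⌊c * len 3 X⌋₊ + 2) (by omega) (hLen 3 (by norm_num) (by norm_num) cB hcB c4)
    rw [← hW] at hSK
    have hWz : (0 : ℤ) < W := by exact_mod_cast hW0
    have g1 := Int.emod_nonneg (S - U) hWz.ne'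
    have g2 := Int.emod_lt_of_pos (S - U) hWz
    refine ⟨U + (S - U) % (W : ℤ), by omega, ?_, fun b M hM hb1 hb2 => ?_⟩
    · push_cast
      have g3 : (((S - U) % (W : ℤ) : ℤ) : ℝ) ≤ W := by exact_mod_cast g2.le
      linarith
    · obtain ⟨u, hu⟩ : ∃ u, u = U + (S - U) % (W : ℤ) := ⟨_, rfl⟩
      rw [← hu]
      have huS : (W : ℤ) ∣ u - S := by
        rw [hu]
        have h7 := Int.dvd_self_sub_emod (x := S - U) (m := (W : ℤ))
        have e1 : U + (S - U) % (W : ℤ) - S = -(S - U - (S - U) % (W : ℤ)) := by ring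
        rw [e1]
        exact h7.neg_right
      have hWXz : (W : ℤ) ≤ X := by
        have e1 : √(X : ℝ) ≤ X := by
          rw [Real.sqrt_le_left hX0.le]
          nlinarith
        have : (W : ℝ) ≤ X := by linarith
        exact_mod_cast this
      have h6 := h1' 3 (by norm_num) (by norm_num) u (K - u ^ 2) b M
        (by
          rw [abs_le] at hU ⊢
          constructor <;> omega) (by have := Real.sqrt_nonneg (X : ℝ); linarith) hb1 hb2
        (by
          intro a ha i hi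
          have hkk : (W : ℤ) ∣ (u ^ 2 + a) - K := by
            have e1 : (u ^ 2 + a) - K = a - (K - u ^ 2) := by ring
            rw [e1]
            exact ha
          obtain ⟨p, hp, g3, g4, g5⟩ := hSK _ _ huS hkk i hi
          refine ⟨p, hp, g3, g4, ?_⟩
          have e1 : (u + i) ^ 2 + a = i ^ 2 + 2 * u * i + (u ^ 2 + a) := by ring
          rw [e1]
          exact g5)
        (fun _ => (u : ℝ)) (fun a _ => by rw [sub_self, abs_zero]; exact zero_le_one)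
      refine le_trans ?_ h6
      exact div_le_div_of_nonneg_left (Nat.cast_nonneg _) (by positivity) hW4

end Pool.Agent.W2helper63.LG
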